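import Pool.Agent.Helper36.HS.GoalsL
import Pool.Agent.Helper67.SP.RegBase
import Pool.Agent.Helper67.Lin.MOLW

/-! # GLU: existence of the weak derivative -/

open Complex Metric Set Filter Topology MeasureTheory
open scoped ContDiff ComplexConjugate ComplexOrder Manifold

namespace Pool.Agent.Helper36.HS

open Pool.Agent.Helper95.Lin Pool.Agent.Helper16.Abund Pool.Agent.Helper92.Orb
  Pool.Agent.Helper10.SP Pool.Agent.Helper67.SP

variable {n : ℕ}

theorem mollc_congr' {f g : Cn n → ℂ} {ε : ℝ} (hε : 0 < ε) {x : Cn n}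
    (h : ∀ y ∈ ball x ε, f y = g y) : mollc f ε x = mollc g ε x := by
  unfold mollc
  refine integral_congr_ae (Eventually.of_forall fun y => ?_)
  by_cases hy : mol n ε y = 0
  · simp [hy]
  · have h1 := Pool.Agent.Helper67.Lin.norm_lt_of_mol hε hy
    have h2 : x - y ∈ ball x ε := by
      rw [mem_ball, dist_eq_norm]
      simpa using h1
    simp only [h _ h2]

/-- Exhaustion by compact sets. -/
theorem exh {T : Set (Cn n)} (hT : IsOpen T) : ∃ K : ℕ → Set (Cn n), (∀ j, IsCompact (K j)) ∧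
    (∀ j, K j ⊆ T) ∧ (∀ j, K j ⊆ interior (K (j + 1))) ∧
    ∀ C ⊆ T, IsCompact C → ∃ j, ∀ i ≥ j, C ⊆ K i := by
  have hl : LocallyCompactSpace T := hT.locallyCompactSpace
  let E : CompactExhaustion T := CompactExhaustion.choice T
  refine ⟨fun j => Subtype.val '' E j, fun j => (E.isCompact j).image continuous_subtype_val,
    ?_, ?_, ?_⟩
  · rintro j _ ⟨x, -, rfl⟩
    exact x.2
  · rintro j _ ⟨x, hx, rfl⟩
    have h1 := E.subset_interior_succ j hx
    have h2 : IsOpen (Subtype.val '' interior (E (j + 1)) : Set (Cn n)) :=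
      hT.isOpenMap_subtype_val _ isOpen_interior
    exact interior_maximal (image_mono interior_subset) h2 ⟨x, h1, rfl⟩
  · intro C hCT hC
    have h1 : IsCompact (Subtype.val ⁻¹' C : Set T) := by
      rw [Subtype.isCompact_iff, Subtype.image_preimage_coe, inter_eq_right.2 hCT]
      exact hC
    obtain ⟨j, hj⟩ := E.exists_superset_of_isCompact h1
    refine ⟨j, fun i hi x hx => ⟨⟨x, hCT hx⟩, E.subset hi (hj hx), rfl⟩⟩

theorem contDiff_dz {φ : Cn n → ℂ} (hφ : ContDiff ℝ ∞ φ) (a : Fin n × Bool) :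
    ContDiff ℝ ∞ (dz a φ) := by
  unfold dz
  split_ifs
  · exact (contDiff_cd hφ a.1).2
  · exact (contDiff_cd hφ a.1).1

theorem dz_congr {f g : Cn n → ℂ} (a : Fin n × Bool) {x : Cn n} (h : f =ᶠ[𝓝 x] g) :
    dz a f x = dz a g x := by
  unfold dz
  split_ifs
  · unfold cdb
    rw [h.fderiv_eq]
  · unfold cd
    rw [h.fderiv_eq]

theorem tc_dz {T : Set (Cn n)} {ζ : Cn n → ℂ} (hζ : TC T ζ) (a : Fin n × Bool) :
    TC T (dz a ζ) := by
  unfold dz
  split_ifs
  · exact (tc_cd hζ a.1).2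
  · exact (tc_cd hζ a.1).1

theorem dz_off {ζ : Cn n → ℂ} (a : Fin n × Bool) {x : Cn n} (hx : x ∉ tsupport ζ) :
    dz a ζ x = 0 := by
  unfold dz
  split_ifs
  · exact (cd_off hx a.1).2
  · exact (cd_off hx a.1).1

theorem glu (hMOL2 : S_MOL2) (hL2LIM : S_L2LIM) (hHLA : S_HLA) : S_GLU := by
  intro n T hT f hf a hMC
  obtain ⟨K, hK1, hK2, hK3, hK4⟩ := exh hT
  have hε : ∀ j : ℕ, ∃ e : ℝ, 0 < e ∧ e ≤ 1 / (j + 1 : ℝ) ∧ ∀ x ∈ K j, ball x e ⊆ K (j + 1) := by
    intro j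
    obtain ⟨δ, hδ, h1⟩ := (hK1 j).exists_thickening_subset_open isOpen_interior (hK3 j)
    refine ⟨min δ (1 / (j + 1 : ℝ)), lt_min hδ (by positivity), min_le_right _ _, ?_⟩
    intro x hx y hy
    refine interior_subset (h1 ?_)
    rw [mem_thickening_iff]
    exact ⟨x, hx, (mem_ball.1 hy).trans_le (min_le_left _ _)⟩
  choose e he0 he1 he2 using hε
  have hfK : ∀ C ⊆ T, IsCompact C → MemLp (C.indicator f) 2 volume := fun C hCT hC =>
    (memLp_indicator_iff_restrict hC.measurableSet).2 (hf C hCT hC)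
  set s : ℕ → Cn n → ℂ := fun j => mollc ((K (j + 1)).indicator f) (e j) with hs
  have hsm : ∀ j, ContDiff ℝ ∞ (s j) := fun j =>
    ((hMOL2 _ (hfK _ (hK2 (j + 1)) (hK1 (j + 1)))).1 (e j) (he0 j)).1
  have helim : Tendsto e atTop (𝓝[>] 0) := by
    refine tendsto_nhdsWithin_iff.2 ⟨?_, Eventually.of_forall he0⟩
    exact squeeze_zero (fun j => (he0 j).le) he1 tendsto_one_div_add_atTop_nhds_zero_nat
  -- local comparison
  have hloc : ∀ C ⊆ T, IsCompact C → ∃ C₁ ⊆ T, IsCompact C₁ ∧ C ⊆ interior C₁ ∧ ∃ J, ∀ j ≥ J,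
      ∀ x ∈ C, s j =ᶠ[𝓝 x] mollc (C₁.indicator f) (e j) := by
    intro C hCT hC
    obtain ⟨C₁, hC₁, h1, h1T⟩ := exists_compact_between hC hT hCT
    obtain ⟨C₂, hC₂, h2, h21⟩ := exists_compact_between hC isOpen_interior h1
    obtain ⟨ρ, hρ, hρ'⟩ := hC₂.exists_thickening_subset_open isOpen_interior h21
    obtain ⟨J₁, hJ₁⟩ := hK4 C₁ h1T hC₁
    have hev := (tendsto_order.1 (helim.mono_right nhdsWithin_le_nhds)).2 ρ hρ
    obtain ⟨J₂, hJ₂⟩ := eventually_atTop.1 hev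
    refine ⟨C₁, h1T, hC₁, h1, max J₁ J₂, fun j hj x hx => ?_⟩
    filter_upwards [isOpen_interior.mem_nhds (h2 hx)] with y hy
    refine mollc_congr' (he0 j) fun z hz => ?_
    have hz1 : z ∈ C₁ := by
      refine interior_subset (hρ' ?_)
      rw [mem_thickening_iff]
      exact ⟨y, interior_subset hy, (mem_ball.1 hz).trans (hJ₂ j ((le_max_right _ _).trans hj))⟩
    have hz2 : z ∈ K (j + 1) := hJ₁ (j + 1) (((le_max_left _ _).trans hj).trans (Nat.le_succ j)) hz1
    rw [indicator_of_mem hz1, indicator_of_mem hz2]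
  -- Cauchy property of the derivatives
  have hcau : ∀ C ⊆ T, IsCompact C → ∀ δ > 0, ∃ J, ∀ i ≥ J, ∀ j ≥ J,
      ∫ x in C, ‖dz a (s i) x - dz a (s j) x‖ ^ 2 ≤ δ := by
    intro C hCT hC δ hδ
    obtain ⟨C₁, h1T, hC₁, h1, J₁, hJ₁⟩ := hloc C hCT hC
    obtain ⟨ε₀, hε₀, h2⟩ := hMC C C₁ hC hC₁ h1 h1T δ hδ
    have hev := (tendsto_order.1 (helim.mono_right nhdsWithin_le_nhds)).2 ε₀ hε₀
    obtain ⟨J₂, hJ₂⟩ := eventually_atTop.1 hev
    refine ⟨max J₁ J₂, fun i hi j hj => ?_⟩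
    refine le_trans (le_of_eq ?_) (h2 (e i) (e j) (he0 i) (hJ₂ i ((le_max_right _ _).trans hi))
      (he0 j) (hJ₂ j ((le_max_right _ _).trans hj)))
    refine setIntegral_congr_fun hC.measurableSet fun x hx => ?_
    show ‖dz a (s i) x - dz a (s j) x‖ ^ 2 = _
    rw [dz_congr a (hJ₁ i ((le_max_left _ _).trans hi) x hx),
      dz_congr a (hJ₁ j ((le_max_left _ _).trans hj) x hx)]
  obtain ⟨g, hg⟩ := hL2LIM T hT (fun j => dz a (s j))
    (fun j => (contDiff_dz (hsm j) a).continuous.continuousOn) hcau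
  -- convergence of the functions
  have hconv : ∀ C ⊆ T, IsCompact C → Tendsto (fun j => ∫ x in C, ‖s j x - f x‖ ^ 2) atTop (𝓝 0) := by
    intro C hCT hC
    obtain ⟨C₁, h1T, hC₁, h1, J₁, hJ₁⟩ := hloc C hCT hC
    obtain ⟨hm1, hm2⟩ := hMOL2 _ (hfK C₁ h1T hC₁)
    have hlim := hm2.comp helim
    refine squeeze_zero' (Eventually.of_forall fun j => integral_nonneg fun x => by positivity)
      ?_ hlim
    filter_upwards [eventually_ge_atTop J₁] with j hj
    have hi : Integrable (fun x => ‖mollc (C₁.indicator f) (e j) x - C₁.indicator f x‖ ^ 2)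
        volume := memLp_sq ((hm1 (e j) (he0 j)).2.1.sub (hfK C₁ h1T hC₁))
    have h2 : ∫ x in C, ‖s j x - f x‖ ^ 2 =
        ∫ x in C, ‖mollc (C₁.indicator f) (e j) x - C₁.indicator f x‖ ^ 2 := by
      refine setIntegral_congr_fun hC.measurableSet fun x hx => ?_
      show ‖s j x - f x‖ ^ 2 = ‖mollc (C₁.indicator f) (e j) x - C₁.indicator f x‖ ^ 2
      rw [(hJ₁ j hj x hx).self_of_nhds, indicator_of_mem (interior_subset (h1 hx))]
    rw [h2]
    exact setIntegral_le_integral hi (Eventually.of_forall fun x => by positivity)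
  refine ⟨g, fun C hCT hC => (hg C hCT hC).1, ?_⟩
  rintro ζ ⟨hζ1, hζ2, hζ3⟩
  have hζ : TC T ζ := ⟨hζ1, hζ2, hζ3⟩
  have hCc : IsCompact (tsupport ζ) := hζ2.isCompact
  have hTC : ∀ q P : Cn n → ℂ, (∀ x ∉ tsupport ζ, P x = 0) →
      ∫ x in T, q x * P x = ∫ x in tsupport ζ, q x * P x := by
    intro q P hP
    refine setIntegral_eq_of_subset_of_forall_sdiff_eq_zero hT.measurableSet hζ3 fun x hx => ?_
    rw [hP x hx.2, mul_zero]
  have hpass : ∀ (t : ℕ → Cn n → ℂ) (q P : Cn n → ℂ),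
      (∀ j, MemLp (t j) 2 (volume.restrict (tsupport ζ))) →
      MemLp q 2 (volume.restrict (tsupport ζ)) →
      Tendsto (fun j => ∫ x in tsupport ζ, ‖t j x - q x‖ ^ 2) atTop (𝓝 0) →
      Continuous P → (∀ x ∉ tsupport ζ, P x = 0) →
      Tendsto (fun j => ∫ x in T, t j x * P x) atTop (𝓝 (∫ x in T, q x * P x)) := by
    intro t q P ht hq hlim hPc hP0
    have hPL : MemLp P 2 (volume.restrict (tsupport ζ)) := memLp_on hCc hPc.continuousOn
    have h1 := tendsto_mul_int (μ := volume.restrict (tsupport ζ))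
      (a := fun j x => t j x - q x) (b := P) (fun j => (ht j).sub hq) hPL hlim
    have hi1 : ∀ r : Cn n → ℂ, MemLp r 2 (volume.restrict (tsupport ζ)) →
        Integrable (fun x => r x * P x) (volume.restrict (tsupport ζ)) := fun r hr =>
      hr.integrable_mul hPL
    have h2 : ∀ j, ∫ x in tsupport ζ, (t j x - q x) * P x =
        (∫ x in T, t j x * P x) - ∫ x in T, q x * P x := by
      intro j
      rw [hTC _ _ hP0, hTC _ _ hP0, ← integral_sub (hi1 _ (ht j)) (hi1 _ hq)]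
      refine integral_congr_ae (Eventually.of_forall fun x => ?_)
      exact sub_mul _ _ _
    simp only [h2] at h1
    have := h1.add_const (∫ x in T, q x * P x)
    simpa using this
  have hL1 := hpass s f (dz a ζ) (fun j => memLp_on hCc (hsm j).continuous.continuousOn)
    (hf _ hζ3 hCc) (hconv _ hζ3 hCc) (tc_dz hζ a).smooth.continuous fun x hx => dz_off a hx
  have hL2 := hpass (fun j => dz a (s j)) g ζ
    (fun j => memLp_on hCc (contDiff_dz (hsm j) a).continuous.continuousOn)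
    (hg _ hζ3 hCc).1 (hg _ hζ3 hCc).2 hζ1.continuous
    fun x hx => image_eq_zero_of_notMem_tsupport hx
  obtain ⟨-, -, -, -, -, h5, -⟩ := hHLA T hT
  have heq : ∀ j, ∫ x in T, s j x * dz a ζ x = - ∫ x in T, dz a (s j) x * ζ x := fun j =>
    h5 a (s j) (hsm j).contDiffOn ζ ⟨hζ1, hζ2, hζ3⟩
  simp only [heq] at hL1
  exact tendsto_nhds_unique hL1 hL2.neg

end Pool.Agent.Helper36.HS
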