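import Pool.Agent.Helper36.HS.GoalsL
import Pool.Agent.Helper67.SP.REG
import Pool.Agent.Helper35.SP.BOX

/-! # HS-MINS: the minimizing sequence -/

open Complex Metric Set Filter Topology MeasureTheory
open scoped ContDiff ComplexConjugate ComplexOrder Manifold

namespace Pool.Agent.Helper36.HS

open Pool.Agent.Helper95.Lin Pool.Agent.Helper16.Abund Pool.Agent.Helper92.Orb
  Pool.Agent.Helper10.SP

universe u v

/-! ## The abstract argument -/

/-- A minimizing sequence of `N x x + 2 l x` on a subspace. -/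
theorem abs_min {E : Type*} [AddCommGroup E] [Module ℝ E] (S : E → Prop) (N : E → E → ℝ)
    (l : E → ℝ) (h0 : S 0) (hS : ∀ x y, ∀ a : ℝ, S x → S y → S (x + a • y))
    (hN : ∀ x y z, ∀ a : ℝ, S x → S y → S z → N (x + a • y) z = N x z + a * N y z)
    (hsym : ∀ x y, S x → S y → N x y = N y x) (hpos : ∀ x, S x → 0 ≤ N x x)
    (hl : ∀ x y, ∀ a : ℝ, S x → S y → l (x + a • y) = l x + a * l y)
    (c : ℝ) (hc : ∀ x, S x → - c ≤ N x x + 2 * l x) :
    ∃ φ : ℕ → E, (∀ j, S (φ j)) ∧
      (∀ δ > 0, ∃ J, ∀ i ≥ J, ∀ j ≥ J, N (φ i + (-1 : ℝ) • φ j) (φ i + (-1 : ℝ) • φ j) ≤ δ) ∧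
      ∀ h, S h → Tendsto (fun j => N (φ j) h + l h) atTop (𝓝 0) := by
  have hN2 : ∀ x y z, ∀ a : ℝ, S x → S y → S z → N z (x + a • y) = N z x + a * N z y := by
    intro x y z a hx hy hz
    rw [hsym z _ hz (hS x y a hx hy), hN x y z a hx hy hz, hsym x z hx hz, hsym y z hy hz]
  have hNN : ∀ x y, ∀ a : ℝ, S x → S y →
      N (x + a • y) (x + a • y) = N x x + 2 * a * N x y + a ^ 2 * N y y := by
    intro x y a hx hy
    rw [hN x y _ a hx hy (hS x y a hx hy), hN2 x y x a hx hy hx, hN2 x y y a hx hy hy,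
      hsym y x hy hx]
    ring
  set Jf : E → ℝ := fun x => N x x + 2 * l x with hJf
  set V : Set ℝ := {r | ∃ x, S x ∧ r = Jf x} with hV
  have hVne : V.Nonempty := ⟨Jf 0, 0, h0, rfl⟩
  have hVb : BddBelow V := ⟨-c, by rintro r ⟨x, hx, rfl⟩; exact hc x hx⟩
  set d := sInf V with hd
  have hle : ∀ x, S x → d ≤ Jf x := fun x hx => csInf_le hVb ⟨x, hx, rfl⟩
  have hex : ∀ j : ℕ, ∃ x, S x ∧ Jf x < d + 1 / ((j : ℝ) + 1) := by
    intro j
    obtain ⟨r, ⟨x, hx, rfl⟩, hr⟩ := exists_lt_of_csInf_lt hVne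
      (show sInf V < d + 1 / ((j : ℝ) + 1) by
        have : (0 : ℝ) < 1 / ((j : ℝ) + 1) := by positivity
        linarith)
    exact ⟨x, hx, hr⟩
  choose φ hφ hφJ using hex
  have hlim : Tendsto (fun j : ℕ => 1 / ((j : ℝ) + 1)) atTop (𝓝 0) :=
    tendsto_one_div_add_atTop_nhds_zero_nat
  refine ⟨φ, hφ, ?_, ?_⟩
  · intro δ hδ
    obtain ⟨J, hJ⟩ := (hlim.eventually (gt_mem_nhds (show (0 : ℝ) < δ / 4 by positivity))).exists_forall_of_atTop
    refine ⟨J, fun i hi j hj => ?_⟩
    set x := φ i with hx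
    set y := φ j with hy
    have hSx : S x := hφ i
    have hSy : S y := hφ j
    -- the midpoint
    have hm1 : S (x + (1 : ℝ) • y) := hS x y 1 hSx hSy
    have hm : S ((0 : E) + (1 / 2 : ℝ) • (x + (1 : ℝ) • y)) := hS 0 _ (1 / 2) h0 hm1
    have e1 := hle _ hm
    have hN00 : N 0 0 = 0 := by
      have h := hN 0 0 0 1 h0 h0 h0
      simp only [smul_zero, add_zero, one_mul] at h
      linarith
    have hN0 : ∀ z, S z → N 0 z = 0 := by
      intro z hz
      have h := hN 0 0 z 1 h0 h0 hz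
      simp only [smul_zero, add_zero, one_mul] at h
      linarith
    have hl0 : l 0 = 0 := by
      have h := hl 0 0 1 h0 h0
      simp only [smul_zero, add_zero, one_mul] at h
      linarith
    have e2 : Jf ((0 : E) + (1 / 2 : ℝ) • (x + (1 : ℝ) • y)) =
        1 / 4 * (N x x + 2 * N x y + N y y) + (l x + l y) := by
      show N _ _ + 2 * l _ = _
      rw [hNN 0 _ (1 / 2) h0 hm1, hl 0 _ (1 / 2) h0 hm1, hNN x y 1 hSx hSy, hl x y 1 hSx hSy,
        hN0 _ hm1, hN00, hl0]
      ring
    have e3 := hNN x y (-1) hSx hSy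
    have e4 : Jf x < d + δ / 4 := by
      have h1 := hφJ i
      have h2 : 1 / ((i : ℝ) + 1) < δ / 4 := hJ i hi
      have : Jf x < d + 1 / ((i : ℝ) + 1) := h1
      linarith
    have e5 : Jf y < d + δ / 4 := by
      have h1 := hφJ j
      have h2 : 1 / ((j : ℝ) + 1) < δ / 4 := hJ j hj
      have : Jf y < d + 1 / ((j : ℝ) + 1) := h1
      linarith
    rw [e2] at e1
    have e6 : Jf x = N x x + 2 * l x := rfl
    have e7 : Jf y = N y y + 2 * l y := rfl
    rw [e3]
    nlinarith
  · intro h hh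
    have hN' := hpos h hh
    have key : ∀ j, (N (φ j) h + l h) ^ 2 ≤ 1 / ((j : ℝ) + 1) * (N h h + 1) := by
      intro j
      set b := N (φ j) h + l h with hb
      have ht := hle _ (hS (φ j) h (-b / (N h h + 1)) (hφ j) hh)
      have e1 : Jf (φ j + (-b / (N h h + 1)) • h) =
          Jf (φ j) + 2 * (-b / (N h h + 1)) * b + (-b / (N h h + 1)) ^ 2 * N h h := by
        show N _ _ + 2 * l _ = (N _ _ + 2 * l _) + _ + _
        rw [hNN _ _ _ (hφ j) hh, hl _ _ _ (hφ j) hh, hb]
        ring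
      rw [e1] at ht
      have e2 := hφJ j
      have hp : 0 < N h h + 1 := by linarith
      have e3 : 0 < 1 / ((j : ℝ) + 1) + 2 * (-b / (N h h + 1)) * b +
          (-b / (N h h + 1)) ^ 2 * N h h := by linarith
      have e4 : 2 * (-b / (N h h + 1)) * b + (-b / (N h h + 1)) ^ 2 * N h h ≤
          - (b ^ 2 / (N h h + 1)) := by
        have : 2 * (-b / (N h h + 1)) * b + (-b / (N h h + 1)) ^ 2 * N h h +
            (b ^ 2 / (N h h + 1)) = - (b ^ 2 / (N h h + 1) ^ 2) := by
          field_simp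
          ring
        have h2 : 0 ≤ b ^ 2 / (N h h + 1) ^ 2 := by positivity
        linarith
      have e5 : b ^ 2 / (N h h + 1) ≤ 1 / ((j : ℝ) + 1) := by linarith
      rwa [div_le_iff₀ hp] at e5
    have hlim2 : Tendsto (fun j : ℕ => 1 / ((j : ℝ) + 1) * (N h h + 1)) atTop (𝓝 0) := by
      simpa using hlim.mul_const (N h h + 1)
    have hsq : Tendsto (fun j => (N (φ j) h + l h) ^ 2) atTop (𝓝 0) :=
      squeeze_zero (fun j => sq_nonneg _) key hlim2
    have h1 : Tendsto (fun j => |N (φ j) h + l h|) atTop (𝓝 0) := by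
      have := (Real.continuous_sqrt.tendsto 0).comp hsq
      simpa [Function.comp_def, Real.sqrt_sq_eq_abs] using this
    exact (tendsto_zero_iff_abs_tendsto_zero _).2 h1

/-! ## The application -/

theorem cdb_lin' {n : ℕ} {f g : Cn n → ℂ} {x : Cn n} (hf : DifferentiableAt ℝ f x)
    (hg : DifferentiableAt ℝ g x) (a : ℂ) (k : Fin n) :
    cdb k (fun y => f y + a * g y) x = cdb k f x + a * cdb k g x := by
  have h : fderiv ℝ (fun y => f y + a * g y) x = fderiv ℝ f x + a • fderiv ℝ g x := by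
    rw [fderiv_fun_add hf (hg.const_mul a), fderiv_const_mul hg]
  unfold cdb
  rw [h]
  simp only [add_apply, smul_apply, smul_eq_mul]
  ring

theorem mins (hDETI : S_DETI.{u}) : S_MINS.{u} := by
  intro n T G _ R H hK κ hκ F hF
  obtain ⟨d1, d2, d3, -⟩ := hDETI T R H hK
  have hT := hK.et.isOpen
  set W : Cn n → ℝ := fun x => (H x).det.re with hWdef
  have hW : ∀ x ∈ T, 0 < W x := fun x hx => (d1 x hx).2.1
  have hW' : ContinuousOn W T := d2.continuousOn
  have hpos : ∀ x ∈ T, (H x)⁻¹.PosDef := fun x hx => (d1 x hx).2.2.1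
  have hsm : ∀ {φ : Cn n → ℝ}, ContDiffOn ℝ ∞ φ T → ContDiffOn ℝ ∞ (fun x => (φ x : ℂ)) T :=
    fun h => Complex.ofRealCLM.contDiff.comp_contDiffOn h
  have hint : ∀ {f : Cn n → ℝ}, ContinuousOn f T → IntegrableOn (fun x => κ x * W x * f x) T := by
    intro f hf
    have h1 : IntegrableOn (fun x => κ x * W x * f x) (tsupport κ) :=
      (((hκ.test.1.continuous.continuousOn.mul (hW'.mono hκ.test.2.2))).mul
        (hf.mono hκ.test.2.2)).integrableOn_compact hκ.test.2.1
    refine h1.of_forall_sdiff_eq_zero hT.measurableSet fun x hx => ?_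
    rw [image_eq_zero_of_notMem_tsupport hx.2, zero_mul, zero_mul]
  have hint2 : ∀ {f g : Cn n → ℝ}, ContinuousOn f T → ContinuousOn g T →
      IntegrableOn (fun x => κ x * W x * (f x * g x)) T := fun hf hg => hint (hf.mul hg)
  have hdip : ∀ {φ ψ : Cn n → ℝ}, ContDiffOn ℝ ∞ φ T → ContDiffOn ℝ ∞ ψ T →
      IntegrableOn (fun x => κ x * W x *
        (dbp H (fun x => (φ x : ℂ)) (fun x => (ψ x : ℂ)) x).re) T ∧
      (dipE T κ W H (fun x => (φ x : ℂ)) (fun x => (ψ x : ℂ))).re =
        ∫ x in T, κ x * W x * (dbp H (fun x => (φ x : ℂ)) (fun x => (ψ x : ℂ)) x).re :=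
    fun h1 h2 => Pool.Agent.Helper67.SP.dip_re hT hκ hW' d3 (hsm h1) (hsm h2)
  -- the bilinear form and the linear form
  set N : (Cn n → ℝ) → (Cn n → ℝ) → ℝ := fun φ ψ =>
    (∫ x in T, κ x * W x * (φ x * ψ x)) +
      (dipE T κ W H (fun x => (φ x : ℂ)) (fun x => (ψ x : ℂ))).re with hNdef
  set l : (Cn n → ℝ) → ℝ := fun h => ∫ x in T, κ x * W x * (F x * h x) with hldef
  have hS : ∀ x y : Cn n → ℝ, ∀ a : ℝ, InvF T R x → InvF T R y → InvF T R (x + a • y) := by
    intro x y a hx hy
    refine ⟨hx.1.add (contDiffOn_const.smul hy.1), fun γ p q hpq => ?_⟩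
    simp only [Pi.add_apply, Pi.smul_apply, smul_eq_mul]
    rw [hx.2 γ p q hpq, hy.2 γ p q hpq]
  have h0 : InvF T R (0 : Cn n → ℝ) := ⟨contDiffOn_const, fun _ _ _ _ => rfl⟩
  have hNlin : ∀ x y z : Cn n → ℝ, ∀ a : ℝ, InvF T R x → InvF T R y → InvF T R z →
      N (x + a • y) z = N x z + a * N y z := by
    intro x y z a hx hy hz
    have e1 : ∫ p in T, κ p * W p * ((x + a • y) p * z p) =
        (∫ p in T, κ p * W p * (x p * z p)) + a * ∫ p in T, κ p * W p * (y p * z p) := by
      rw [← integral_const_mul, ← integral_add (hint2 hx.1.continuousOn hz.1.continuousOn)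
        ((hint2 hy.1.continuousOn hz.1.continuousOn).const_mul a)]
      refine integral_congr_ae (Eventually.of_forall fun p => ?_)
      simp only [Pi.add_apply, Pi.smul_apply, smul_eq_mul]
      ring
    have e2 : (dipE T κ W H (fun p => ((x + a • y) p : ℂ)) (fun p => (z p : ℂ))).re =
        (dipE T κ W H (fun p => (x p : ℂ)) (fun p => (z p : ℂ))).re +
        a * (dipE T κ W H (fun p => (y p : ℂ)) (fun p => (z p : ℂ))).re := by
      rw [(hdip (hS x y a hx hy).1 hz.1).2, (hdip hx.1 hz.1).2, (hdip hy.1 hz.1).2,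
        ← integral_const_mul, ← integral_add (hdip hx.1 hz.1).1 ((hdip hy.1 hz.1).1.const_mul a)]
      refine setIntegral_congr_fun hT.measurableSet fun p hp => ?_
      have hdx : DifferentiableAt ℝ (fun p => (x p : ℂ)) p :=
        ((hsm hx.1).contDiffAt (hT.mem_nhds hp)).differentiableAt (by simp)
      have hdy : DifferentiableAt ℝ (fun p => (y p : ℂ)) p :=
        ((hsm hy.1).contDiffAt (hT.mem_nhds hp)).differentiableAt (by simp)
      have hd : ∀ j, cdb j (fun p => ((x + a • y) p : ℂ)) p =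
          cdb j (fun p => (x p : ℂ)) p + (a : ℂ) * cdb j (fun p => (y p : ℂ)) p := by
        intro j
        rw [← cdb_lin' hdx hdy (a : ℂ) j]
        congr 1
        funext q
        simp
      have hb : dbp H (fun p => ((x + a • y) p : ℂ)) (fun p => (z p : ℂ)) p =
          dbp H (fun p => (x p : ℂ)) (fun p => (z p : ℂ)) p +
            (a : ℂ) * dbp H (fun p => (y p : ℂ)) (fun p => (z p : ℂ)) p := by
        unfold dbp
        rw [Finset.mul_sum, ← Finset.sum_add_distrib]
        refine Finset.sum_congr rfl fun j _ => ?_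
        rw [Finset.mul_sum, ← Finset.sum_add_distrib]
        refine Finset.sum_congr rfl fun k _ => ?_
        rw [hd j]
        ring
      show κ p * W p * (dbp H (fun p => ((x + a • y) p : ℂ)) (fun p => (z p : ℂ)) p).re = _
      rw [hb, Complex.add_re, Complex.re_ofReal_mul]
      ring
    show (∫ p in T, κ p * W p * ((x + a • y) p * z p)) + _ = _
    rw [e1, e2]
    show _ = ((∫ p in T, κ p * W p * (x p * z p)) + _) + a * ((∫ p in T, κ p * W p * (y p * z p)) + _)
    ring
  have hsym : ∀ x y : Cn n → ℝ, InvF T R x → InvF T R y → N x y = N y x := by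
    intro x y hx hy
    show (∫ p in T, κ p * W p * (x p * y p)) + _ = (∫ p in T, κ p * W p * (y p * x p)) + _
    rw [(hdip hx.1 hy.1).2, (hdip hy.1 hx.1).2]
    congr 1
    · refine integral_congr_ae (Eventually.of_forall fun p => ?_)
      show κ p * W p * (x p * y p) = κ p * W p * (y p * x p)
      ring
    · refine setIntegral_congr_fun hT.measurableSet fun p hp => ?_
      show κ p * W p * (dbp H (fun x_1 => (x x_1 : ℂ)) (fun x => (y x : ℂ)) p).re =
        κ p * W p * (dbp H (fun x => (y x : ℂ)) (fun x_1 => (x x_1 : ℂ)) p).re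
      rw [← Pool.Agent.Helper35.SP.dbp_conj hDETI hK (fun x => (y x : ℂ)) (fun q => (x q : ℂ)) hp,
        Complex.conj_re]
  have hge : ∀ x : Cn n → ℝ, InvF T R x → ∫ p in T, κ p * W p * (x p * x p) ≤ N x x := by
    intro x hx
    have := Pool.Agent.Helper67.SP.dip_nonneg hT hκ hW hW' d3 hpos (hsm hx.1)
    show _ ≤ (∫ p in T, κ p * W p * (x p * x p)) + _
    linarith
  have hpos' : ∀ x : Cn n → ℝ, InvF T R x → 0 ≤ N x x := by
    intro x hx
    refine le_trans ?_ (hge x hx)
    refine setIntegral_nonneg hT.measurableSet fun p hp => ?_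
    exact mul_nonneg (mul_nonneg (hκ.nonneg p) (hW p hp).le) (mul_self_nonneg _)
  have hl : ∀ x y : Cn n → ℝ, ∀ a : ℝ, InvF T R x → InvF T R y → l (x + a • y) = l x + a * l y := by
    intro x y a hx hy
    show ∫ p in T, κ p * W p * (F p * (x + a • y) p) = (∫ p in T, κ p * W p * (F p * x p)) +
      a * ∫ p in T, κ p * W p * (F p * y p)
    rw [← integral_const_mul, ← integral_add (hint2 hF.1.continuousOn hx.1.continuousOn)
      ((hint2 hF.1.continuousOn hy.1.continuousOn).const_mul a)]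
    refine integral_congr_ae (Eventually.of_forall fun p => ?_)
    simp only [Pi.add_apply, Pi.smul_apply, smul_eq_mul]
    ring
  have hc : ∀ x : Cn n → ℝ, InvF T R x →
      - (∫ p in T, κ p * W p * (F p * F p)) ≤ N x x + 2 * l x := by
    intro x hx
    have h1 := hge x hx
    have h2 : 0 ≤ ∫ p in T, κ p * W p * ((x p + F p) * (x p + F p)) := by
      refine setIntegral_nonneg hT.measurableSet fun p hp => ?_
      exact mul_nonneg (mul_nonneg (hκ.nonneg p) (hW p hp).le) (mul_self_nonneg _)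
    have h3 : ∫ p in T, κ p * W p * ((x p + F p) * (x p + F p)) =
        (∫ p in T, κ p * W p * (x p * x p)) + (2 * l x + ∫ p in T, κ p * W p * (F p * F p)) := by
      have i1 := hint2 hx.1.continuousOn hx.1.continuousOn
      have i2 := (hint2 hF.1.continuousOn hx.1.continuousOn).const_mul 2
      have i3 := hint2 hF.1.continuousOn hF.1.continuousOn
      have i23 : IntegrableOn (fun p => 2 * (κ p * W p * (F p * x p)) + κ p * W p * (F p * F p)) T :=
        i2.add i3
      have q1 : 2 * l x = ∫ p in T, 2 * (κ p * W p * (F p * x p)) := by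
        rw [integral_const_mul]
      rw [q1, ← integral_add i2 i3, ← integral_add i1 i23]
      refine integral_congr_ae (Eventually.of_forall fun p => ?_)
      show κ p * W p * ((x p + F p) * (x p + F p)) =
        κ p * W p * (x p * x p) + (2 * (κ p * W p * (F p * x p)) + κ p * W p * (F p * F p))
      ring
    linarith
  obtain ⟨φ, hφ, hcau, hlim⟩ := abs_min (InvF T R) N l h0 hS hNlin hsym hpos' hl _ hc
  refine ⟨φ, hφ, fun δ hδ => ?_, fun h hh => hlim h hh⟩
  obtain ⟨J, hJ⟩ := hcau δ hδ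
  refine ⟨J, fun i hi j hj => ?_⟩
  refine le_trans (le_of_eq ?_) ((hge _ (hS _ _ (-1) (hφ i) (hφ j))).trans (hJ i hi j hj))
  refine integral_congr_ae (Eventually.of_forall fun p => ?_)
  simp only [Pi.add_apply, Pi.smul_apply, smul_eq_mul]
  ring

end Pool.Agent.Helper36.HS
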