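import Pool.Agent.Helper36.HS.GoalsL
import Pool.Agent.Helper67.SP.REG
import Pool.Agent.Helper93.SP.HODG
import Pool.Agent.Helper35.SP.BOX

/-! # WKE: the weak equation for the limit of the minimizing sequence -/

open Complex Metric Set Filter Topology MeasureTheory
open scoped ContDiff ComplexConjugate ComplexOrder Manifold

namespace Pool.Agent.Helper36.HS

open Pool.Agent.Helper95.Lin Pool.Agent.Helper16.Abund Pool.Agent.Helper92.Orb
  Pool.Agent.Helper10.SP Pool.Agent.Helper93.SP Pool.Agent.Helper67.SP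

universe u

section

variable {n : ℕ} {T : Set (Cn n)} {G : Type u} [Group G] {R : G → Cn n → Cn n → Prop}
  {H : Cn n → Matrix (Fin n) (Fin n) ℂ} {κ : Cn n → ℝ}

/-- The integrals against `h` of real functions are real. -/
theorem ip_real (κ : Cn n → ℝ) (H : Cn n → Matrix (Fin n) (Fin n) ℂ) (s t : Cn n → ℝ) :
    ipE T κ (fun x => (H x).det.re) (fun x => (s x : ℂ)) (fun x => (t x : ℂ)) =
      ((∫ x in T, κ x * (H x).det.re * (s x * t x) : ℝ) : ℂ) := by
  unfold ipE
  rw [← integral_complex_ofReal]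
  refine integral_congr_ae (Eventually.of_forall fun x => ?_)
  show ((κ x * (H x).det.re : ℝ) : ℂ) * ((s x : ℂ) * conj (t x : ℂ)) =
    ((κ x * (H x).det.re * (s x * t x) : ℝ) : ℂ)
  rw [Complex.conj_ofReal]
  push_cast
  ring

/-- The form is real on real functions. -/
theorem dip_real (hWIRT : S_WIRT) (hBOX : S_BOX.{u})
    (hLMID : S_LMID.{u}) (hC : Ctx T R H κ) {s t : Cn n → ℝ} (hs : InvF T R s)
    (ht : InvF T R t) :
    (dipE T κ (fun x => (H x).det.re) H (fun x => (s x : ℂ)) (fun x => (t x : ℂ))).im = 0 := by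
  rw [← (hBOX T R H hC.ket κ hC.pu 0 _ hC.wt _ _ (sec_of_inv hs) (sec_of_inv ht)).2.1]
  have h1 : ipE T κ (fun x => (H x).det.re) (boxO H (fun x => (H x).det.re) fun x => (s x : ℂ))
      (fun x => (t x : ℂ)) =
      ((∫ x in T, κ x * (H x).det.re * (- (trL H s x).re * t x) : ℝ) : ℂ) := by
    unfold ipE
    rw [← integral_complex_ofReal]
    refine setIntegral_congr_fun hC.isOpen.measurableSet fun x hx => ?_
    show ((κ x * (H x).det.re : ℝ) : ℂ) * (boxO H (fun x => (H x).det.re) (fun x => (s x : ℂ)) x *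
      conj (t x : ℂ)) = ((κ x * (H x).det.re * (- (trL H s x).re * t x) : ℝ) : ℂ)
    have e1 : boxO H (fun x => (H x).det.re) (fun x => (s x : ℂ)) x = - trL H s x := by
      rw [boxO_eq hWIRT hC.isOpen H hC.Hs hC.Ws hC.Wp hC.div (sec_of_inv hs).1 hx, trL_eq]
    have e2 : trL H s x = ((trL H s x).re : ℂ) := by
      apply Complex.ext
      · simp
      · rw [Complex.ofReal_im]
        exact (hLMID T R H hC.ket κ hC.pu s hs.1 (dinv_of_inv hs)).1 x hx
    obtain ⟨a, ha⟩ : ∃ a : ℝ, trL H s x = (a : ℂ) := ⟨_, e2⟩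
    rw [e1, ha, Complex.ofReal_re, Complex.conj_ofReal]
    push_cast
    ring
  rw [h1, Complex.ofReal_im]

/-- `ipE` is conjugate linear in the second variable. -/
theorem ip_split (hC : Ctx T R H κ) {s h : Cn n → ℂ} (hs : ContinuousOn s T)
    (hh : ContinuousOn h T) :
    ipE T κ (fun x => (H x).det.re) s h =
      ipE T κ (fun x => (H x).det.re) s (fun x => ((h x).re : ℂ)) -
        I * ipE T κ (fun x => (H x).det.re) s (fun x => ((h x).im : ℂ)) := by
  have hr : ContinuousOn (fun x => ((h x).re : ℂ)) T :=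
    Complex.continuous_ofReal.comp_continuousOn (Complex.continuous_re.comp_continuousOn hh)
  have hi : ContinuousOn (fun x => ((h x).im : ℂ)) T :=
    Complex.continuous_ofReal.comp_continuousOn (Complex.continuous_im.comp_continuousOn hh)
  have i1 := (ip_int hC.isOpen hC.pu hC.Ws.continuousOn hs hr).1
  have i2 := (ip_int hC.isOpen hC.pu hC.Ws.continuousOn hs hi).1
  unfold ipE
  rw [← integral_const_mul, ← integral_sub i1 (i2.const_mul I)]
  refine integral_congr_ae (Eventually.of_forall fun x => ?_)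
  show ((κ x * (H x).det.re : ℝ) : ℂ) * (s x * conj (h x)) =
    ((κ x * (H x).det.re : ℝ) : ℂ) * (s x * conj ((h x).re : ℂ)) -
      I * (((κ x * (H x).det.re : ℝ) : ℂ) * (s x * conj ((h x).im : ℂ)))
  have e : conj (h x) = ((h x).re : ℂ) - I * ((h x).im : ℂ) := by
    apply Complex.ext <;> simp
  rw [e, Complex.conj_ofReal, Complex.conj_ofReal]
  ring

/-- `dipE` is conjugate linear in the second variable. -/
theorem dip_split (hC : Ctx T R H κ) {s h : Cn n → ℂ} (hs : ContDiffOn ℝ ∞ s T)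
    (hh : ContDiffOn ℝ ∞ h T) :
    dipE T κ (fun x => (H x).det.re) H s h =
      dipE T κ (fun x => (H x).det.re) H s (fun x => ((h x).re : ℂ)) -
        I * dipE T κ (fun x => (H x).det.re) H s (fun x => ((h x).im : ℂ)) := by
  have hr : ContDiffOn ℝ ∞ (fun x => ((h x).re : ℂ)) T :=
    Complex.ofRealCLM.contDiff.comp_contDiffOn (Complex.reCLM.contDiff.comp_contDiffOn hh)
  have hi : ContDiffOn ℝ ∞ (fun x => ((h x).im : ℂ)) T :=
    Complex.ofRealCLM.contDiff.comp_contDiffOn (Complex.imCLM.contDiff.comp_contDiffOn hh)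
  have i1 := dip_int hC.isOpen hC.pu hC.Ws.continuousOn hC.Hs hs hr
  have i2 := dip_int hC.isOpen hC.pu hC.Ws.continuousOn hC.Hs hs hi
  unfold dipE
  rw [← integral_const_mul, ← integral_sub i1 (i2.const_mul I)]
  refine setIntegral_congr_fun hC.isOpen.measurableSet fun x hx => ?_
  have hd : ∀ {u : Cn n → ℂ}, ContDiffOn ℝ ∞ u T → DifferentiableAt ℝ u x := fun hu =>
    (hu.differentiableOn (by simp)).differentiableAt (hC.isOpen.mem_nhds hx)
  have e : ∀ k, conj (cdb k h x) = conj (cdb k (fun x => ((h x).re : ℂ)) x) -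
      I * conj (cdb k (fun x => ((h x).im : ℂ)) x) := by
    intro k
    have h1 := cdb_lin k (hd hr) (hd hi) I
    have h2 : (fun y => ((h y).re : ℂ) + I * ((h y).im : ℂ)) = h := by
      ext y
      rw [mul_comm I]
      exact re_add_im (h y)
    rw [h2] at h1
    rw [h1, map_add, map_mul, Complex.conj_I]
    ring
  show ((κ x * (H x).det.re : ℝ) : ℂ) * dbp H s h x =
    ((κ x * (H x).det.re : ℝ) : ℂ) * dbp H s (fun x => ((h x).re : ℂ)) x -
      I * (((κ x * (H x).det.re : ℝ) : ℂ) * dbp H s (fun x => ((h x).im : ℂ)) x)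
  have e2 : dbp H s h x = dbp H s (fun x => ((h x).re : ℂ)) x -
      I * dbp H s (fun x => ((h x).im : ℂ)) x := by
    unfold dbp
    rw [Finset.mul_sum, ← Finset.sum_sub_distrib]
    refine Finset.sum_congr rfl fun j _ => ?_
    rw [Finset.mul_sum, ← Finset.sum_sub_distrib]
    refine Finset.sum_congr rfl fun k _ => ?_
    rw [e k]
    ring
  rw [e2]
  ring

end

/-- WKE. -/
theorem wke (hWIRT : S_WIRT) (hARRB : S_ARRB.{u}) (hDETI : S_DETI.{u}) (hBOX : S_BOX.{u})
    (hL2C : S_L2C.{u}) (hAUT : S_AUT.{u}) (hL2LIM : S_L2LIM) (hLMID : S_LMID.{u})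
    (hPUE : S_PUE.{u}) (hMINS : S_MINS.{u}) : S_WKE.{u} := by
  intro n T G _ R H hK F hF
  obtain ⟨κ, hC⟩ := exists_ctx hDETI hPUE hK
  have hT := hC.isOpen
  obtain ⟨φ, hφ, hcau, hlim⟩ := hMINS T R H hK κ hC.pu F hF
  set W : Cn n → ℝ := fun x => (H x).det.re with hWdef
  have hWs : ContDiffOn ℝ ∞ W T := hC.Ws
  set s : ℕ → Cn n → ℂ := fun j x => (φ j x : ℂ) with hsdef
  have hs : ∀ j, Sec T R 0 (s j) := fun j => sec_of_inv (hφ j)
  -- Cauchy on compact sets
  have hcauC : ∀ C ⊆ T, IsCompact C → ∀ ε > 0, ∃ J, ∀ i ≥ J, ∀ j ≥ J,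
      ∫ x in C, ‖s i x - s j x‖ ^ 2 ≤ ε := by
    intro C hCT hCc ε hε
    obtain ⟨B, hB⟩ := hL2C T R H hK κ hC.pu 0 W hC.wt C hCT hCc
    obtain ⟨J, hJ⟩ := hcau (ε / (max B 0 + 1)) (by positivity)
    refine ⟨J, fun i hi j hj => ?_⟩
    refine ((hB _ (sec_sub (hs i) (hs j))).1).trans ?_
    have e : nsE T κ W (fun x => s i x - s j x) =
        ∫ x in T, κ x * (H x).det.re * (φ i x - φ j x) ^ 2 := by
      unfold nsE
      refine integral_congr_ae (Eventually.of_forall fun x => ?_)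
      show κ x * W x * ‖(φ i x : ℂ) - (φ j x : ℂ)‖ ^ 2 = κ x * W x * (φ i x - φ j x) ^ 2
      rw [← Complex.ofReal_sub, Complex.norm_real, Real.norm_eq_abs, sq_abs]
    have h0 := ns_nonneg (W := W) hT hC.pu hC.Wp (fun x => s i x - s j x)
    have h1 := hJ i hi j hj
    rw [← e] at h1
    have h2 : B * nsE T κ W (fun x => s i x - s j x) ≤
        max B 0 * nsE T κ W (fun x => s i x - s j x) :=
      mul_le_mul_of_nonneg_right (le_max_left _ _) h0
    have h3 := mul_le_mul_of_nonneg_left h1 (le_max_right B 0)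
    refine (h2.trans h3).trans ?_
    rw [mul_div_assoc', div_le_iff₀ (by positivity)]
    nlinarith [le_max_right B 0]
  obtain ⟨f, hf⟩ := hL2LIM T hT s (fun j => (hs j).1.continuousOn) hcauC
  have hsm : ∀ C ⊆ T, IsCompact C → ∀ j, MemLp (s j) 2 (volume.restrict C) :=
    fun C hCT hCc j => memLp_on hCc ((hs j).1.continuousOn.mono hCT)
  refine ⟨φ, f, hφ, fun C hCT hCc => (hf C hCT hCc).1, fun C hCT hCc => (hf C hCT hCc).2, ?_⟩
  intro ζ hζ
  obtain ⟨hζ1, hζ2, hζ3⟩ := hζ
  have hζ : TC T ζ := ⟨hζ1, hζ2, hζ3⟩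
  have hA : ∀ k j, ContDiffOn ℝ ∞ (fun y => ((W y : ℂ) • (H y)⁻¹) k j) T := fun k j =>
    (Complex.ofRealCLM.contDiff.comp_contDiffOn hWs).mul (hC.Hs k j)
  have hφ' : ∀ k j, TC T (fun y => ((W y : ℂ) • (H y)⁻¹) k j * cd j ζ y) := fun k j =>
    tc_mul hT (tc_cd hζ j).1 (hA k j)
  set Q : Cn n → ℂ := fun x => ∑ k, ∑ j,
    cdb k (fun y => ((W y : ℂ) • (H y)⁻¹) k j * cd j ζ y) x with hQ
  have hQc : Continuous Q := continuous_finsetSum _ fun k _ => continuous_finsetSum _ fun j _ =>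
    (tc_cd (hφ' k j) k).2.smooth.continuous
  have hQ0 : ∀ x ∉ tsupport ζ, Q x = 0 := by
    intro x hx
    refine Finset.sum_eq_zero fun k _ => Finset.sum_eq_zero fun j _ => ?_
    refine (cd_off (φ := fun y => ((W y : ℂ) • (H y)⁻¹) k j * cd j ζ y) ?_ k).2
    intro h
    apply hx
    refine closure_minimal ?_ (isClosed_tsupport ζ) h
    intro y hy
    by_contra h'
    apply hy
    show ((W y : ℂ) • (H y)⁻¹) k j * cd j ζ y = 0
    rw [(cd_off h' j).1, mul_zero]
  have hCc : IsCompact (tsupport ζ) := hζ2.isCompact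
  obtain ⟨hAη, -, -⟩ := hAUT T R H hK κ hC.pu 0 W hC.wt (tsupport ζ) hζ3 hCc
  obtain ⟨hSη, hdη⟩ := hAη (fun y => conj (ζ y))
    (Complex.conjCLE.contDiff.comp hζ1) (fun x hx => by
      show conj (ζ x) = 0
      rw [image_eq_zero_of_notMem_tsupport hx, map_zero])
  set h : Cn n → ℂ := aut R 0 (fun y => conj (ζ y)) with hh
  obtain ⟨hre, him⟩ := inv_re hARRB hK.et hSη
  -- the limit for complex h
  have hreal : ∀ t : Cn n → ℝ, InvF T R t → Tendsto (fun j =>
      ipE T κ W (s j) (fun x => (t x : ℂ)) + dipE T κ W H (s j) (fun x => (t x : ℂ)) +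
      ipE T κ W (fun x => (F x : ℂ)) (fun x => (t x : ℂ))) atTop (𝓝 0) := by
    intro t ht
    have h1 := (Complex.continuous_ofReal.tendsto 0).comp (hlim t ht)
    rw [Complex.ofReal_zero] at h1
    refine h1.congr fun j => ?_
    have e1 := ip_real (T := T) κ H (φ j) t
    have e2 := ip_real (T := T) κ H F t
    have e3 := dip_real hWIRT hBOX hLMID hC (hφ j) ht
    have e4 : dipE T κ W H (s j) (fun x => (t x : ℂ)) =
        ((dipE T κ W H (s j) (fun x => (t x : ℂ))).re : ℂ) := by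
      apply Complex.ext
      · simp
      · rw [Complex.ofReal_im]
        exact e3
    rw [e1, e2, e4]
    show (((∫ x in T, κ x * (H x).det.re * (φ j x * t x)) +
      (dipE T κ (fun x => (H x).det.re) H (fun x => (φ j x : ℂ)) fun x => (t x : ℂ)).re +
      ∫ x in T, κ x * (H x).det.re * (F x * t x) : ℝ) : ℂ) = _
    push_cast
    rfl
  have hcomp : Tendsto (fun j => ipE T κ W (s j) h + dipE T κ W H (s j) h +
      ipE T κ W (fun x => (F x : ℂ)) h) atTop (𝓝 0) := by
    have h1 := (hreal _ hre).sub ((hreal _ him).const_mul I)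
    rw [mul_zero, sub_zero] at h1
    refine h1.congr fun j => ?_
    rw [ip_split hC (hs j).1.continuousOn hSη.1.continuousOn,
      ip_split hC (sec_of_inv hF).1.continuousOn hSη.1.continuousOn,
      dip_split hC (hs j).1 hSη.1]
    ring
  have e : ∀ j, ipE T κ W (s j) h + dipE T κ W H (s j) h + ipE T κ W (fun x => (F x : ℂ)) h =
      (∫ x in T, s j x * ((W x : ℂ) * ζ x)) - (∫ x in T, s j x * Q x) +
        ∫ x in T, (F x : ℂ) * ((W x : ℂ) * ζ x) := by
    intro j
    have e0 : ∀ q : Cn n → ℂ, ∫ x in T, (W x : ℂ) * (q x * conj (conj (ζ x))) =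
        ∫ x in T, q x * ((W x : ℂ) * ζ x) := by
      intro q
      refine integral_congr_ae (Eventually.of_forall fun x => ?_)
      show (W x : ℂ) * (q x * conj (conj (ζ x))) = q x * ((W x : ℂ) * ζ x)
      rw [Complex.conj_conj]
      ring
    rw [(hdη _ (hs j)).1, (hdη _ (hs j)).2, (hdη _ (sec_of_inv hF)).1, e0, e0,
      weak_eq hWIRT hT hWs hC.Hs (hs j).1 hζ]
    ring
  simp only [e] at hcomp
  have hTC : ∀ q P : Cn n → ℂ, (∀ x ∉ tsupport ζ, P x = 0) →
      ∫ x in T, q x * P x = ∫ x in tsupport ζ, q x * P x := by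
    intro q P hP
    refine setIntegral_eq_of_subset_of_forall_sdiff_eq_zero hT.measurableSet hζ3 fun x hx => ?_
    rw [hP x hx.2, mul_zero]
  have hpass : ∀ P : Cn n → ℂ, ContinuousOn P (tsupport ζ) → (∀ x ∉ tsupport ζ, P x = 0) →
      Tendsto (fun j => ∫ x in T, s j x * P x) atTop (𝓝 (∫ x in T, f x * P x)) := by
    intro P hPc hP0
    have hPL : MemLp P 2 (volume.restrict (tsupport ζ)) := memLp_on hCc hPc
    have h1 := tendsto_mul_int (μ := volume.restrict (tsupport ζ))
      (a := fun j x => s j x - f x) (b := P)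
      (fun j => (hsm _ hζ3 hCc j).sub (hf _ hζ3 hCc).1) hPL (hf _ hζ3 hCc).2
    have hi1 : ∀ q : Cn n → ℂ, MemLp q 2 (volume.restrict (tsupport ζ)) →
        Integrable (fun x => q x * P x) (volume.restrict (tsupport ζ)) := fun q hq =>
      hq.integrable_mul hPL
    have h2 : ∀ j, ∫ x in tsupport ζ, (s j x - f x) * P x =
        (∫ x in T, s j x * P x) - ∫ x in T, f x * P x := by
      intro j
      rw [hTC _ _ hP0, hTC _ _ hP0, ← integral_sub (hi1 _ (hsm _ hζ3 hCc j)) (hi1 _ (hf _ hζ3 hCc).1)]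
      refine integral_congr_ae (Eventually.of_forall fun x => ?_)
      exact sub_mul _ _ _
    simp only [h2] at h1
    have := h1.add_const (∫ x in T, f x * P x)
    simpa using this
  have hWζ : ∀ x ∉ tsupport ζ, (W x : ℂ) * ζ x = 0 := fun x hx => by
    rw [image_eq_zero_of_notMem_tsupport hx, mul_zero]
  have hWζc : ContinuousOn (fun x => (W x : ℂ) * ζ x) (tsupport ζ) :=
    (Complex.continuous_ofReal.comp_continuousOn (hWs.continuousOn.mono hζ3)).mul
      hζ1.continuous.continuousOn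
  have hfin := ((hpass _ hWζc hWζ).sub (hpass Q hQc.continuousOn hQ0)).add_const
    (∫ x in T, (F x : ℂ) * ((W x : ℂ) * ζ x))
  have hend := tendsto_nhds_unique hfin hcomp
  have i1 : IntegrableOn (fun x => f x * ((W x : ℂ) * ζ x)) T := by
    have h1 : IntegrableOn (fun x => f x * ((W x : ℂ) * ζ x)) (tsupport ζ) :=
      (hf _ hζ3 hCc).1.integrable_mul (memLp_on hCc hWζc)
    exact h1.of_forall_sdiff_eq_zero hT.measurableSet fun x hx => by
      rw [hWζ x hx.2, mul_zero]
  have i2 : IntegrableOn (fun x => (F x : ℂ) * ((W x : ℂ) * ζ x)) T := by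
    have h1 : IntegrableOn (fun x => (F x : ℂ) * ((W x : ℂ) * ζ x)) (tsupport ζ) :=
      ((Complex.continuous_ofReal.comp_continuousOn (hF.1.continuousOn.mono hζ3)).mul
        hWζc).integrableOn_compact hCc
    exact h1.of_forall_sdiff_eq_zero hT.measurableSet fun x hx => by
      rw [hWζ x hx.2, mul_zero]
  have e5 : ∫ x in T, ((W x : ℂ) * f x + ((W x * F x : ℝ) : ℂ)) * ζ x =
      (∫ x in T, f x * ((W x : ℂ) * ζ x)) + ∫ x in T, (F x : ℂ) * ((W x : ℂ) * ζ x) := by
    rw [← integral_add i1 i2]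
    refine integral_congr_ae (Eventually.of_forall fun x => ?_)
    show ((W x : ℂ) * f x + ((W x * F x : ℝ) : ℂ)) * ζ x =
      f x * ((W x : ℂ) * ζ x) + (F x : ℂ) * ((W x : ℂ) * ζ x)
    push_cast
    ring
  show ∫ x in T, f x * Q x = (∫ x in T, ((W x : ℂ) * f x + ((W x * F x : ℝ) : ℂ)) * ζ x) -
    ∑ j, ∫ x in T, (0 : ℂ) * cd j ζ x
  rw [e5]
  simp only [zero_mul, integral_zero, Finset.sum_const_zero, sub_zero]
  linear_combination -hend

end Pool.Agent.Helper36.HS
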