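import Pool.Agent.Helper36.HS.AsmL
import Pool.Agent.Helper36.HS.WKE
import Pool.Agent.Helper36.HS.MINS
import Pool.Agent.Helper36.HS.GLU
import Pool.Agent.Helper94.HS.CACF
import Pool.Agent.Helper7.HS.REGF
import Pool.Agent.Helper8.HS.CDN
import Pool.Agent.Helper61.HS.HLA
import Pool.Agent.Helper61.HS.DEQ
import Pool.Agent.Helper61.HS.HCL
import Pool.Agent.Helper41.HS.SOB
import Pool.Agent.Helper90.HS.HCM
import Pool.Agent.Helper90.HS.CDR
import Pool.Agent.Helper90.HS.LOS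
import Pool.Agent.Helper89.HS.CRP
import Pool.Agent.Helper27.HS.SMC
import Pool.Agent.Helper46.HS.FNL
import Pool.Agent.Helper10.SP.WIRT
import Pool.Agent.Helper90.SP.LMF
import Pool.Agent.Helper59.SP.WCH
import Pool.Agent.Helper32.SP.ARRB
import Pool.Agent.Helper48.SP.LFIN
import Pool.Agent.Helper75.SP.PUE
import Pool.Agent.Helper8.SP.DETI
import Pool.Agent.Helper80.SP.SWAP
import Pool.Agent.Helper8.SP.DIVC
import Pool.Agent.Helper35.SP.BOX
import Pool.Agent.Helper35.SP.L2C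
import Pool.Agent.Helper36.SP.L2LIM
import Pool.Agent.Helper62.SP.AUT
import Pool.Agent.Helper2.SP.MOL2
import Pool.Agent.Helper33.SP.FRIE
import Pool.Agent.Helper13.SP.LMID

/-! # The goal `S_LSOL` without hypotheses -/

namespace Pool.Agent.Helper36.HS

open Pool.Agent.Helper10.SP Pool.Agent.Helper57.HS

universe u

/-- `S_LSOL` without hypotheses. -/
theorem lsol_done : S_LSOL.{u} := by
  have WIRT : S_WIRT := Pool.Agent.Helper10.SP.Wirt.wirt
  have LMF : S_LMF := Pool.Agent.Helper90.SP.lmf WIRT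
  have WCH : S_WCH := Pool.Agent.Helper59.SP.wch
  have ARRB : S_ARRB.{u} := Pool.Agent.Helper32.SP.arrb
  have LFIN : S_LFIN.{u} := Pool.Agent.Helper48.SP.lfin ARRB
  have ASI : S_ASI.{u} := Pool.Agent.Helper75.SP.asi
  have PUE : S_PUE.{u} := Pool.Agent.Helper75.SP.pue LFIN ASI
  have DETI : S_DETI.{u} := Pool.Agent.Helper8.SP.deti WIRT
  have SWAP : S_SWAP.{u} := Pool.Agent.Helper80.SP.swap LFIN
  have DIVC : S_DIVC.{u} := Pool.Agent.Helper8.SP.divc WIRT WCH LFIN SWAP DETI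
  have BOX : S_BOX.{u} := Pool.Agent.Helper35.SP.box WIRT WCH DETI DIVC
  have L2C : S_L2C.{u} := Pool.Agent.Helper35.SP.l2c WIRT WCH ARRB DETI
  have L2LIM : S_L2LIM := Pool.Agent.Helper36.SP.l2lim
  have AUT : S_AUT.{u} := Pool.Agent.Helper62.SP.aut WIRT WCH ARRB LFIN ASI SWAP DETI
  have MOL2 : S_MOL2 := Pool.Agent.Helper2.SP.mol2
  have FRIE : S_FRIE := Pool.Agent.Helper33.SP.frie
  have LMID : S_LMID.{u} := Pool.Agent.Helper13.SP.lmid WIRT WCH LMF ARRB DETI DIVC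
  have CACF : S_CACF := Pool.Agent.Helper94.CACF.cacf WIRT
  have REGF : S_REGF := Pool.Agent.Helper7.HS.regf WIRT MOL2 FRIE CACF
  have CDN : S_CDN := Pool.Agent.Helper8.HS.cdn WIRT MOL2
  have HLA : S_HLA := Pool.Agent.Helper61.HS.hla
  have DEQ : S_DEQ := Pool.Agent.Helper61.HS.deq
  have HCL : S_HCL := Pool.Agent.Helper61.HS.hcl
  have HCM : S_HCM := Pool.Agent.Helper90.HS.hcm
  have CDR : S_CDR := Pool.Agent.Helper90.HS.cdr
  have SOB : S_SOB := Pool.Agent.Helper41.HS.sob WIRT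
  have CRP : S_CRP := Pool.Agent.Helper89.HS.crp MOL2 SOB HCM
  have SMC : S_SMC := Pool.Agent.Helper27.HS.smc CRP CDR
  have LOS : S_LOS := Pool.Agent.Helper90.HS.los HCL SMC
  have MINS : S_MINS.{u} := mins DETI
  have WKE : S_WKE.{u} := wke WIRT ARRB DETI BOX L2C AUT L2LIM LMID PUE MINS
  have FNL : S_FNL.{u} := Pool.Agent.Helper46.HS.fnl ARRB DETI
  have GLU : S_GLU := glu MOL2 L2LIM HLA
  have IND : S_IND := ind REGF CDN GLU HLA DEQ
  have HYP : S_HYP := hyp HLA IND LOS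
  intro n T G _ R Q hQ F hF
  exact lsol DETI HYP WKE FNL T R Q hQ F hF

end Pool.Agent.Helper36.HS
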