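import Pool.Agent.Helper36.HS.GoalsL
import Pool.Agent.Helper57.HS.DefsB

/-! # HS: higher regularity, hypoellipticity, assembly of `S_LSOL` -/

open Complex Metric Set Filter Topology MeasureTheory
open scoped ContDiff ComplexConjugate ComplexOrder Manifold

namespace Pool.Agent.Helper36.HS

open Pool.Agent.Helper95.Lin Pool.Agent.Helper16.Abund Pool.Agent.Helper92.Orb
  Pool.Agent.Helper10.SP Pool.Agent.Helper57.HS

universe u v

theorem hl_L2l {n : ℕ} {T : Set (Cn n)} {m : ℕ} {f : Cn n → ℂ} (h : HL T m f) : L2l T f := by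
  cases m with
  | zero => exact h
  | succ m => exact h.1

theorem ind (hREGF : S_REGF) (hCDN : S_CDN) (hGLU : S_GLU) (hHLA : S_HLA) (hDEQ : S_DEQ) :
    S_IND := by
  intro n T A hT hA hpos m
  obtain ⟨h0, h1, h2, h3, h4, h5, h6⟩ := hHLA T hT
  induction m with
  | zero =>
    intro f F₀ F hf hF₀ hF heq
    refine ⟨hf, fun a => ?_⟩
    have hmc : MC T a f := by
      obtain ⟨l, b⟩ := a
      have key := hREGF T A hT hA hpos f F₀ F hf hF₀ hF heq l
      cases b with
      | true => exact key
      | false => exact hCDN T hT f hf l key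
    exact hGLU T hT f hf a hmc
  | succ m ih =>
    intro f F₀ F hf hF₀ hF heq
    have hfm : HL T (m + 1) f := ih f F₀ F hf (h0 m F₀ hF₀) (fun j => h0 m (F j) (hF j)) heq
    refine ⟨hf, fun a => ?_⟩
    obtain ⟨g, hg, hfg⟩ := hfm.2 a
    obtain ⟨G₀, hG₀, hFG₀⟩ := hF₀.2 a
    choose G hG hFG using fun j => (hF j).2 a
    choose h hh hfh using fun k : Fin n => hfm.2 (k, true)
    refine ⟨g, ?_, hfg⟩
    have heq' := hDEQ T A hT hA f F₀ F hf (hl_L2l hF₀) (fun j => hl_L2l (hF j)) heq a g G₀ G h
      (hl_L2l hg) (hl_L2l hG₀) (fun j => hl_L2l (hG j)) (fun k => hl_L2l (hh k)) hfg hFG₀ hFG hfh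
    refine ih g G₀ _ (hl_L2l hg) hG₀ (fun j => ?_) heq'
    have hsm : ∀ k, HL T m fun x => (- dz a (fun y => A y k j) x) * h k x := by
      intro k
      refine h4 m (h k) (fun x => - dz a (fun y => A y k j) x) ?_ (hh k)
      have hd : ContDiffOn ℝ ∞ (dz a (fun y => A y k j)) T := by
        have hA' := hA k j
        have key : ∀ e : Cn n, ContDiffOn ℝ ∞ (fun x => fderiv ℝ (fun y => A y k j) x e) T := by
          intro e
          exact (hA'.fderiv_of_isOpen hT (by norm_cast)).clm_apply contDiffOn_const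
        obtain ⟨l, b⟩ := a
        cases b with
        | true =>
          have : dz (l, true) (fun y => A y k j) = fun x =>
              fderiv ℝ (fun y => A y k j) x (Pi.single l 1) +
                I * fderiv ℝ (fun y => A y k j) x (Pi.single l I) := by
            funext x; simp [dz, cdb]
          rw [this]
          exact (key _).add (contDiffOn_const.mul (key _))
        | false =>
          have : dz (l, false) (fun y => A y k j) = fun x =>
              fderiv ℝ (fun y => A y k j) x (Pi.single l 1) -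
                I * fderiv ℝ (fun y => A y k j) x (Pi.single l I) := by
            funext x; simp [dz, cd]
          rw [this]
          exact (key _).sub (contDiffOn_const.mul (key _))
      exact hd.neg
    have hsum : ∀ s : Finset (Fin n), HL T m fun x =>
        G j x + ∑ k ∈ s, (- dz a (fun y => A y k j) x) * h k x := by
      intro s
      induction s using Finset.induction_on with
      | empty => simpa using hG j
      | insert k s hk ih2 =>
        have := h1 m _ _ ih2 (hsm k)
        refine (show (fun x => G j x + ∑ k ∈ s, (- dz a (fun y => A y k j) x) * h k x +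
          (- dz a (fun y => A y k j) x) * h k x) = fun x => G j x +
            ∑ k ∈ insert k s, (- dz a (fun y => A y k j) x) * h k x from ?_) ▸ this
        funext x
        rw [Finset.sum_insert hk]
        ring
    exact hsum Finset.univ

theorem hyp (hHLA : S_HLA) (hIND : S_IND) (hLOS : S_LOS) : S_HYP := by
  intro n T A hT hA hpos f c g hc hg hf heq
  obtain ⟨h0, h1, h2, h3, h4, h5, h6⟩ := hHLA T hT
  refine hLOS T hT f fun m => ?_
  induction m with
  | zero => exact hf
  | succ m ih =>
    refine hIND T A hT hA hpos m f _ _ hf (h1 m _ _ (h4 m f c hc ih) (h6 m g hg)) (fun j => ?_) heq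
    exact h6 m (fun _ => 0) contDiffOn_const

theorem lsol (hDETI : S_DETI.{u}) (hHYP : S_HYP) (hWKE : S_WKE.{u}) (hFNL : S_FNL.{u}) :
    S_LSOL.{u} := by
  intro n T G _ R Q hQ F hF
  obtain ⟨d1, d2, d3, -⟩ := hDETI T R Q hQ
  obtain ⟨φ, f, hφ, hf, hlim, heq⟩ := hWKE T R Q hQ F hF
  have hT : IsOpen T := hQ.et.isOpen
  have hW : ContDiffOn ℝ ∞ (fun x => (((Q x).det.re : ℝ) : ℂ)) T :=
    Complex.ofRealCLM.contDiff.comp_contDiffOn d2
  have hFc : ContDiffOn ℝ ∞ (fun x => (((Q x).det.re * F x : ℝ) : ℂ)) T :=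
    Complex.ofRealCLM.contDiff.comp_contDiffOn (d2.mul hF.1)
  obtain ⟨g, hg, hfg⟩ := hHYP T (fun x => (((Q x).det.re : ℝ) : ℂ) • (Q x)⁻¹) hT
    (fun j k => by
      have := hW.mul (d3 j k)
      refine this.congr fun x _ => ?_
      simp [Matrix.smul_apply])
    (fun x hx => by
      have h1 := (d1 x hx).2.2.1
      have h2 := (d1 x hx).2.1
      have h3 : (0 : ℂ) < (((Q x).det.re : ℝ) : ℂ) := by
        rw [Complex.lt_def]; simpa using h2
      exact h1.smul h3)
    f _ _ hW hFc hf heq
  exact hFNL T R Q hQ F φ f g hF hφ hf hlim heq hg hfg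

end Pool.Agent.Helper36.HS
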