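import Pool.Agent.Helper10.SP.GoalsT

/-!
# HS, goals L: smooth solutions of the linear equation `Δ_H v - v = F` (`S_LSOL` of Helper57/HS)

Local regularity theory in `L²` for elliptic operators `∑ cd_j (A k j cdb_k f)` in divergence form with
smooth coefficients, and the variational solution. The goals `WIRT, WCH, LMF, ARRB, DETI, BOX, L2C, AUT,
MOL2, FRIE, CACC, REGL, L2LIM, LMID, PUE` of Helper10/SP are proved (theorems `t_X` of
`Pool.Agent.Helper10.SP.Asm`); packets take the goals they use as hypotheses `(hX : S_X)`.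
-/

open Complex Metric Set Filter Topology MeasureTheory
open scoped ContDiff ComplexConjugate ComplexOrder Manifold

namespace Pool.Agent.Helper36.HS

open Pool.Agent.Helper95.Lin Pool.Agent.Helper16.Abund Pool.Agent.Helper92.Orb
  Pool.Agent.Helper10.SP

universe u v

/-! ## Definitions -/

/-- Locally square integrable on `T`. -/
def L2l {n : ℕ} (T : Set (Cn n)) (f : Cn n → ℂ) : Prop :=
  ∀ C ⊆ T, IsCompact C → MemLp f 2 (volume.restrict C)

/-- Complex valued test functions on `T`. -/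
def TestC {n : ℕ} (T : Set (Cn n)) (ζ : Cn n → ℂ) : Prop :=
  ContDiff ℝ ∞ ζ ∧ HasCompactSupport ζ ∧ tsupport ζ ⊆ T

/-- The operators `cd l` (`a = (l, false)`) and `cdb l` (`a = (l, true)`). -/
noncomputable def dz {n : ℕ} (a : Fin n × Bool) (f : Cn n → ℂ) : Cn n → ℂ :=
  if a.2 then cdb a.1 f else cd a.1 f

/-- `g` is the weak derivative `dz a f` on `T`. -/
def WD {n : ℕ} (T : Set (Cn n)) (a : Fin n × Bool) (f g : Cn n → ℂ) : Prop :=
  ∀ ζ, TestC T ζ → ∫ x in T, f x * dz a ζ x = - ∫ x in T, g x * ζ x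

/-- `f` has `m` weak derivatives in `L²_loc(T)`. -/
def HL {n : ℕ} (T : Set (Cn n)) : ℕ → (Cn n → ℂ) → Prop
  | 0, f => L2l T f
  | m + 1, f => L2l T f ∧ ∀ a, ∃ g, HL T m g ∧ WD T a f g

/-- The weak form of the equation `∑ cd_j (∑ A k j cdb_k f) = F₀ + ∑ cd_j F_j` on `T`. -/
def WEq {n : ℕ} (T : Set (Cn n)) (A : Cn n → Matrix (Fin n) (Fin n) ℂ) (f F₀ : Cn n → ℂ)
    (F : Fin n → Cn n → ℂ) : Prop :=
  ∀ ζ, TestC T ζ → ∫ x in T, f x * ∑ k, ∑ j, cdb k (fun y => A y k j * cd j ζ y) x =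
    (∫ x in T, F₀ x * ζ x) - ∑ j, ∫ x in T, F j x * cd j ζ x

/-- The derivatives `dz a` of the mollifications of `f` are Cauchy in `L²_loc(T)`. -/
def MC {n : ℕ} (T : Set (Cn n)) (a : Fin n × Bool) (f : Cn n → ℂ) : Prop :=
  ∀ C C₁ : Set (Cn n), IsCompact C → IsCompact C₁ → C ⊆ interior C₁ → C₁ ⊆ T → ∀ δ > 0, ∃ ε₀ > 0,
    ∀ ε ε' : ℝ, 0 < ε → ε < ε₀ → 0 < ε' → ε' < ε₀ →
    ∫ x in C, ‖dz a (mollc (C₁.indicator f) ε) x - dz a (mollc (C₁.indicator f) ε') x‖ ^ 2 ≤ δ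

/-- Iterated derivatives along a word. -/
noncomputable def Dw {n : ℕ} : List (Fin n × Bool) → (Cn n → ℂ) → Cn n → ℂ
  | [], w => w
  | a :: α, w => Dw α (dz a w)

/-- `u` is a square integrable function with compact support and has `m` weak derivatives on `ℂⁿ` which
are again of this kind. -/
def HC {n : ℕ} : ℕ → (Cn n → ℂ) → Prop
  | 0, u => MemLp u 2 volume ∧ ∃ K, IsCompact K ∧ ∀ x ∉ K, u x = 0
  | m + 1, u => (MemLp u 2 volume ∧ ∃ K, IsCompact K ∧ ∀ x ∉ K, u x = 0) ∧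
      ∀ a, ∃ g, HC m g ∧ WD univ a u g

/-! ## H¹ regularity -/

/-- CACF. The Caccioppoli inequality with a term of order zero on the right. USES: WIRT.
PROOF. As `S_CACC` (see `Pool/Agent/Helper80/SP/CACC.lean`, copy the proof): multiply the equation by `χ² conj(u)` and
integrate by parts; the only new term is `∫ χ² F₀ conj(u)`, and `|χ² F₀ conj u| ≤ χ² (|F₀|² + |u|²) / 2`, `χ²` is bounded.
(Or deduce it from `S_CACC` in dimension `n + 1`: `u(z, w) = u(z)`, `A = diag(A, 1)`, `F_(n+1)(z, w) = w F₀(z) / 2`, whose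
`cd_w` is `F₀`, and `χ(z) χ₁(w)`.) -/
def S_CACF : Prop := ∀ {n : ℕ} (T : Set (Cn n)) (A : Cn n → Matrix (Fin n) (Fin n) ℂ), IsOpen T →
  (∀ j k, ContDiffOn ℝ ∞ (fun x => A x j k) T) → (∀ x ∈ T, (A x).PosDef) → ∀ χ : Cn n → ℝ,
  TestF T χ → ∃ B : ℝ, ∀ (u F₀ : Cn n → ℂ) (F : Cn n → Cn n), ContDiffOn ℝ ∞ u T →
    ContDiffOn ℝ ∞ F₀ T → ContDiffOn ℝ ∞ F T →
    (∀ x ∈ tsupport χ, ∑ j, cd j (fun y => ∑ k, A y k j * cdb k u y) x =
      F₀ x + ∑ j, cd j (fun y => F y j) x) →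
    ∫ x in T, χ x ^ 2 * ∑ k, ‖cdb k u x‖ ^ 2 ≤
      B * ((∫ x in tsupport χ, ‖u x‖ ^ 2) + (∫ x in tsupport χ, ‖F₀ x‖ ^ 2) +
        ∫ x in tsupport χ, ∑ j, ‖F x j‖ ^ 2)

/-- REGF. Weak solutions have square integrable derivatives `cdb_l f`. USES: WIRT, MOL2, FRIE, CACF.
PROOF. This is `S_REGL` with a right hand side; the proof of `S_REGL` is in `Pool/Agent/Helper9/SP/REGL.lean` (copy what you
can). Let `C ⊆ interior C₁`, `C₁ ⊆ T`. Choose a compact `C₂` with `C ⊆ interior C₂`, `C₂ ⊆ interior C₁`, and a test function `χ`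
on `interior C₂` equal to `1` on `C`. Write `f_ε = mollc (C₁.indicator f) ε`, the same for `F₀`, `F_j`. For `ε` smaller than the
distance of `C₂` to the complement of `interior C₁` and `x ∈ interior C₂` the test function `ζ(y) = mol n ε (x - y)` is supported
in `C₁`, and `WEq` for it reads
 `∫ f(y) ∑ k j, cdb_k^y (A k j (y) cd_j^y mol(x - y)) dy = ∫ F₀(y) mol(x-y) dy - ∑ j ∫ F_j(y) cd_j^y mol(x-y) dy`.
As `cd_j^y (mol (x-y)) = - cd_j^x (mol (x-y))`, the right side is `(F₀)_ε(x) + ∑ j cd_j ((F_j)_ε)(x)` and the left side is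
`- ∑ j cd_j V_j(x)`, `V_j(x) := ∑ k ∫ f(y) cdb_k^y (A k j (y) mol(x-y)) dy = - ∑ k A k j (x) cdb_k f_ε(x) + E_j(x)`,
`E_j(x) := ∑ k ∫ f(y) cdb_k^y ((A k j (y) - A k j (x)) mol(x-y)) dy`. So on `interior C₂`
 `∑ j cd_j (∑ k A k j cdb_k f_ε) = (F₀)_ε + ∑ j cd_j (E_j + (F_j)_ε)`.
`E_j → 0` in `L²(C₂)` by `FRIE` (applied to `C₁.indicator f` and `θ A k j`, `θ` a test function on `T` equal to `1` on `C₁`), and
`f_ε, (F₀)_ε, (F_j)_ε` are Cauchy in `L²` by `MOL2`. Apply `CACF` on `interior C₂` to `u = f_ε - f_ε'` and the differences of the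
right hand sides (all smooth on `interior C₂`). -/
def S_REGF : Prop := ∀ {n : ℕ} (T : Set (Cn n)) (A : Cn n → Matrix (Fin n) (Fin n) ℂ), IsOpen T →
  (∀ j k, ContDiffOn ℝ ∞ (fun x => A x j k) T) → (∀ x ∈ T, (A x).PosDef) →
  ∀ (f F₀ : Cn n → ℂ) (F : Fin n → Cn n → ℂ), L2l T f → L2l T F₀ → (∀ j, L2l T (F j)) →
  WEq T A f F₀ F → ∀ l, MC T (l, true) f

/-- CDN. From `cdb_l` to `cd_l`. USES: WIRT, MOL2.
PROOF. For a smooth `w` with compact support `∫ |cd_l w|² = ∫ |cdb_l w|²` (two integrations by parts: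
`∫ cd_l w conj(cd_l w) = ∫ cd_l w cdb_l (conj w) = - ∫ (cdb_l cd_l w) conj w = - ∫ (cd_l cdb_l w) conj w = ∫ |cdb_l w|²`). Let
`C ⊆ interior C₂`, `C₂ ⊆ interior C₁`, `C₂` compact, `χ` a test function supported in `C₂`, equal to `1` near `C`, and
`w := χ (f_ε - f_ε')`, `f_ε = mollc (C₁.indicator f) ε`: `∫_C |cd_l (f_ε - f_ε')|² ≤ ∫ |cd_l w|² = ∫ |cdb_l w|² ≤
2 ∫ χ² |cdb_l (f_ε - f_ε')|² + 2 ∫ |cdb_l χ|² |f_ε - f_ε'|²`, small by the hypothesis for `(C₂, C₁)` and by `MOL2`. -/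
def S_CDN : Prop := ∀ {n : ℕ} (T : Set (Cn n)), IsOpen T → ∀ f : Cn n → ℂ, L2l T f →
  ∀ l, MC T (l, true) f → MC T (l, false) f

/-- GLU. Existence of the weak derivative. USES: WIRT, MOL2, L2LIM.
PROOF. Exhaust `T` by compact sets `K_0 ⊆ interior K_1`, `K_1 ⊆ interior K_2`, ... with union `T` (`CompactExhaustion` of the open
set, or `{x | ‖x‖ ≤ j, dist(x, Tᶜ) ≥ 1/(j+1)}`), `0 < ε_j ≤ 1/(j+1)` smaller than the distance from `K_j` to the complement of `K_(j+1)`,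
and `s_j := mollc (K_(j+1).indicator f) (ε_j)`, smooth on `ℂⁿ`. Let `C ⊆ T` be compact, `C₁ ⊆ T` a compact set with `C ⊆ interior C₁`.
For large `j` and `x` in a neighbourhood of `C`: `s_j x = mollc (C₁.indicator f) (ε_j) x` (both only see `f` on the ball of
radius `ε_j` about `x`, contained in `C₁ ∩ K_(j+1)`), so `s_j → f` in `L²(C)` (`MOL2`) and `dz a s_j` is Cauchy in `L²(C)` (`MC`).
`L2LIM` gives `g` with `dz a s_j → g` in `L²_loc(T)`, `L2l T g`. For a test function `ζ`: `∫ s_j dz a ζ = - ∫ (dz a s_j) ζ` (integration by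
parts), let `j → ∞` (Cauchy-Schwarz on `tsupport ζ`). -/
def S_GLU : Prop := ∀ {n : ℕ} (T : Set (Cn n)), IsOpen T → ∀ f : Cn n → ℂ, L2l T f →
  ∀ a, MC T a f → ∃ g, L2l T g ∧ WD T a f g

/-! ## Higher regularity -/

/-- HLA. Calculus of weak derivatives. USES: WIRT.
PROOF. (0) clear from the definition by induction. (1), (2) induction on `m`, `WD` is linear (the integrands are integrable: an
`L²_loc` function times a continuous function with compact support in `T`). (3) `ψ ζ` is a test function for a test function `ζ`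
(`ψ` smooth on `T`, `tsupport ζ ⊆ T`): `∫ ψ f dz a ζ = ∫ f dz a (ψ ζ) - ∫ f (dz a ψ) ζ = - ∫ g ψ ζ - ∫ f (dz a ψ) ζ`. (4) induction on
`m` from (3), (1), `dz a ψ` is again smooth; `L2l`: `ψ` is bounded on compact sets. (5) integration by parts. (6) induction
from (5). -/
def S_HLA : Prop := ∀ {n : ℕ} (T : Set (Cn n)), IsOpen T →
  (∀ m f, HL T (m + 1) f → HL T m f) ∧
  (∀ m f g, HL T m f → HL T m g → HL T m fun x => f x + g x) ∧
  (∀ a f g f' g', L2l T f → L2l T g → L2l T f' → L2l T g' → WD T a f g → WD T a f' g' →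
    WD T a (fun x => f x + f' x) fun x => g x + g' x) ∧
  (∀ a f g ψ, ContDiffOn ℝ ∞ ψ T → L2l T f → L2l T g → WD T a f g →
    WD T a (fun x => ψ x * f x) fun x => ψ x * g x + dz a ψ x * f x) ∧
  (∀ m f ψ, ContDiffOn ℝ ∞ ψ T → HL T m f → HL T m fun x => ψ x * f x) ∧
  (∀ a ψ, ContDiffOn ℝ ∞ ψ T → WD T a ψ (dz a ψ)) ∧
  ∀ m ψ, ContDiffOn ℝ ∞ ψ T → HL T m ψ

/-- DEQ. Differentiation of the weak equation. USES: WIRT.
PROOF. Write `D = dz a`; `D ζ` is a test function, `D` commutes with `cd_j`, `cdb_k` on smooth functions (`WIRT`), and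
`A k j cd_j (D ζ) = D (A k j cd_j ζ) - (D A k j) cd_j ζ` on `T`, so with the test function `ξ := ∑ k j, cdb_k (A k j cd_j ζ)`:
`∑ k j, cdb_k (A k j cd_j (D ζ)) = D ξ - ∑ k j, cdb_k ((D A k j) cd_j ζ)`. The left side of `WEq` for `D ζ` is
`∫ f D ξ - ∑ k j ∫ f cdb_k ((D A k j) cd_j ζ) = - ∫ g ξ + ∑ k j ∫ h_k (D A k j) cd_j ζ` (`WD` for `ξ` and for the test functions
`(D A k j) cd_j ζ`), the right side is `∫ F₀ D ζ - ∑ j ∫ F_j D (cd_j ζ) = - ∫ G₀ ζ + ∑ j ∫ G_j cd_j ζ`. -/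
def S_DEQ : Prop := ∀ {n : ℕ} (T : Set (Cn n)) (A : Cn n → Matrix (Fin n) (Fin n) ℂ), IsOpen T →
  (∀ j k, ContDiffOn ℝ ∞ (fun x => A x j k) T) →
  ∀ (f F₀ : Cn n → ℂ) (F : Fin n → Cn n → ℂ), L2l T f → L2l T F₀ → (∀ j, L2l T (F j)) →
  WEq T A f F₀ F → ∀ (a : Fin n × Bool) (g G₀ : Cn n → ℂ) (G h : Fin n → Cn n → ℂ), L2l T g →
  L2l T G₀ → (∀ j, L2l T (G j)) → (∀ k, L2l T (h k)) → WD T a f g → WD T a F₀ G₀ →
  (∀ j, WD T a (F j) (G j)) → (∀ k, WD T (k, true) f (h k)) →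
  WEq T A g G₀ fun j x => G j x + ∑ k, (- dz a (fun y => A y k j) x) * h k x

/-- IND. Higher regularity. USES: REGF, CDN, GLU, HLA, DEQ.
PROOF. Induction on `m` (for all `f, F₀, F`). `m = 0`: `REGF`, `CDN`, `GLU`. `m + 1`: by the case `m` (`HLA` (0)) `HL T (m+1) f`, so for
every `a` there are `g` with `HL T m g`, `WD T a f g` and `h_k` with `HL T m (h_k)`, `WD T (k, true) f (h_k)`; take `G₀, G_j` of class
`HL T m` with `WD T a F₀ G₀`, `WD T a (F_j) (G_j)`. By `DEQ` and `HLA` `g` satisfies a weak equation with right hand side of class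
`HL T m`; by the case `m` `HL T (m+1) g`. -/
def S_IND : Prop := ∀ {n : ℕ} (T : Set (Cn n)) (A : Cn n → Matrix (Fin n) (Fin n) ℂ), IsOpen T →
  (∀ j k, ContDiffOn ℝ ∞ (fun x => A x j k) T) → (∀ x ∈ T, (A x).PosDef) →
  ∀ (m : ℕ) (f F₀ : Cn n → ℂ) (F : Fin n → Cn n → ℂ), L2l T f → HL T m F₀ → (∀ j, HL T m (F j)) →
  WEq T A f F₀ F → HL T (m + 1) f

/-! ## Smoothness -/

/-- SOB. An elementary Sobolev inequality. USES: WIRT.
PROOF. (1) For a smooth `u : ℂ → ℂ` with compact support `‖u z‖ ≤ ∫_ℂ ‖∂_x ∂_y u‖`: `u(x + iy) = ∫_(-∞)^x ∂_x u(s + iy) ds` and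
`∂_x u(s + iy) = ∫_(-∞)^y ∂_y ∂_x u(s + it) dt` (Mathlib: `HasCompactSupport.enorm_le_lintegral_Ici_deriv`, and
`Complex.volume_preserving_equiv_real_prod`). (2) For `w` smooth on `Cn n = Fin n → ℂ` with compact support and `s : Finset (Fin n)`, let
`D_s w` be `w` differentiated by `∂_(x_j) ∂_(y_j)` for `j ∈ s`. Then `‖w x‖ₑ ≤ (∫⋯∫⁻_s ‖D_s w‖ₑ) x` by induction on `s`
(`MeasureTheory.lmarginal_insert`, (1) in the variable `x_j`; Mathlib's proof of the Gagliardo-Nirenberg-Sobolev inequality is a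
model). For `s = univ`: `‖w x‖ ≤ ∫ ‖D_univ w‖`. (3) `∂_x = (cd + cdb)/2`, `∂_y = I (cd - cdb)/2`, so `D_univ w` is a combination of `4^n`
functions `Dw α w`, `α.length = 2 n`, with coefficients of absolute value `4^(-n)`. (4) `∫ ‖Dw α w‖ ≤ vol(K)^(1/2) (∫ ‖Dw α w‖²)^(1/2)`.
So `B = vol K` works. Instead of finsets one can order the variables. -/
def S_SOB : Prop := ∀ {n : ℕ} (K : Set (Cn n)), IsCompact K → ∃ B : ℝ, 0 < B ∧ ∀ (w : Cn n → ℂ)
  (δ : ℝ), ContDiff ℝ ∞ w → (∀ x ∉ K, w x = 0) →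
  (∀ α : List (Fin n × Bool), α.length = 2 * n → ∫ x, ‖Dw α w x‖ ^ 2 ≤ δ) →
  ∀ x, ‖w x‖ ^ 2 ≤ B * δ

/-- HCL. Localization. USES: WIRT.
PROOF. Induction on `m`. `m = 0`: `χ f` vanishes outside the compact set `tsupport χ ⊆ T` and is in `L²` there (`χ` is
bounded). `m + 1`: for a test function `ζ` on `univ`, `χ ζ` is a test function on `T`, and `∫ χ f dz a ζ = ∫_T f dz a (χ ζ) -
∫_T f (dz a χ) ζ = - ∫ (χ g + (dz a χ) f) ζ` (all integrands vanish outside `T`), and `χ g`, `(dz a χ) f` are of class `HC m` by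
induction (`HL T m g`, `HL T m f`, `dz a χ` is a test function), and so is their sum (easy induction: `HC m` is closed under
sums). -/
def S_HCL : Prop := ∀ {n : ℕ} (T : Set (Cn n)), IsOpen T → ∀ (m : ℕ) (f χ : Cn n → ℂ), HL T m f →
  TestC T χ → HC m fun x => χ x * f x

/-- HCM. Mollification commutes with weak derivatives. USES: WIRT, MOL2.
PROOF. If `WD univ a u g` (`u, g` in `L²` with compact support) then `dz a (mollc u ε) = mollc g ε`:
`mollc u ε x = ∫ u(y) mol(x - y) dy`, differentiate under the integral, `dz a^x (mol (x-y)) = - dz a^y (mol (x-y))`, and use `WD` for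
`ζ(y) = mol n ε (x - y)`. Induction on the word. -/
def S_HCM : Prop := ∀ {n : ℕ} (m : ℕ) (u : Cn n → ℂ), HC m u → ∀ α : List (Fin n × Bool),
  α.length ≤ m → ∃ v : Cn n → ℂ, MemLp v 2 volume ∧ (∃ K, IsCompact K ∧ ∀ x ∉ K, v x = 0) ∧
    ∀ ε : ℝ, 0 < ε → Dw α (mollc u ε) = mollc v ε

/-- CRP. Continuous representatives. USES: MOL2, SOB, HCM.
PROOF. Let `u` vanish outside the compact set `K` and `K' := cthickening 1 K`. For `0 < ε, ε' ≤ 1` the function
`w := mollc u ε - mollc u ε'` is smooth and vanishes outside `K'`; for a word `α` of length `2 n`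
`Dw α w = mollc v ε - mollc v ε'` (`HCM`, `v = v_α`), small in `L²` for small `ε, ε'` (`MOL2`, finitely many words). By `SOB` the
functions `mollc u (1/(j+1))` are uniformly Cauchy, the uniform limit `g` is continuous and vanishes outside `K'`, and
`mollc u (1/(j+1)) → u` in `L²`, so `u = g` almost everywhere. -/
def S_CRP : Prop := ∀ {n : ℕ} (u : Cn n → ℂ), HC (2 * n) u →
  ∃ g : Cn n → ℂ, Continuous g ∧ HasCompactSupport g ∧ u =ᵐ[volume] g

/-- CDR. Continuous weak derivatives are derivatives. USES: MOL2.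
PROOF. `u_ε := mollc u ε` is smooth, `u_ε → u` and `dz a u_ε = mollc (g a) ε → g a` uniformly (`u`, `g a` are uniformly continuous;
`dz a (mollc u ε) = mollc (g a) ε` as in `HCM`). `fderiv ℝ u_ε x v = (1/2) ∑ l, (v l * cd l u_ε x + conj (v l) * cdb l u_ε x)` (the
real derivative is determined by `cd`, `cdb`; expand `v` in the real basis), so `fderiv ℝ u_ε` converges uniformly on bounded
sets of `v` to the claimed map; `hasFDerivAt_of_tendstoUniformlyOn` or `hasFDerivAt_of_tendstoUniformly`. -/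
def S_CDR : Prop := ∀ {n : ℕ} (u : Cn n → ℂ) (g : Fin n × Bool → Cn n → ℂ), Continuous u →
  HasCompactSupport u → (∀ a, Continuous (g a)) → (∀ a, HasCompactSupport (g a)) →
  (∀ a, WD univ a u (g a)) → Differentiable ℝ u ∧ ∀ x v, fderiv ℝ u x v =
    1 / 2 * ∑ l, (v l * g (l, false) x + conj (v l) * g (l, true) x)

/-- SMC. Smooth representatives of finite order. USES: CRP, CDR.
PROOF. Induction on `m` (for all `u`). `m = 0`: `CRP`. `m + 1`: `u = g` a.e. with `g` continuous with compact support (`CRP`,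
`HC (2n+m+1) u → HC (2n) u` by an easy induction), and the weak derivatives `u_a` (of class `HC (2n+m)`) are a.e. equal to functions
`g_a` of class `C^m` with compact support. `WD univ a g (g_a)`. By `CDR` `g` is differentiable with derivative
`v ↦ (1/2) ∑ (v l g_(l,false) x + conj(v l) g_(l,true) x)`, a function of class `C^m` of `x` (`contDiff_succ_iff_fderiv`,
`contDiff_clm_apply_iff`...). -/
def S_SMC : Prop := ∀ {n : ℕ} (m : ℕ) (u : Cn n → ℂ), HC (2 * n + m) u →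
  ∃ g : Cn n → ℂ, ContDiff ℝ m g ∧ HasCompactSupport g ∧ u =ᵐ[volume] g

/-- LOS. Smooth representatives. USES: HCL, SMC.
PROOF. Let `x₀ ∈ T`, `B` a ball about `x₀` with closure in `T`, `χ` a (real valued, nonnegative) test function equal to `1` on `B`.
`HC m (χ f)` for every `m` (`HCL`), so `χ f = g_m` a.e. with `g_m` of class `C^m`; all `g_m` are equal (continuous functions which
agree a.e.: `Continuous.ae_eq_iff_eq`), so `g_0 =: g^(x₀)` is smooth, and `f = g^(x₀)` a.e. on `B`. Put `g x := g^(x) x`: on the ball of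
`x₀` it equals `g^(x₀)` (two continuous functions a.e. equal to `f` on the intersection of two balls agree there:
`MeasureTheory.Measure.eqOn_open_of_ae_eq`). So `g` is smooth on `T`, and `f = g` a.e. on `T` (`measure_null_of_locally_null`). -/
def S_LOS : Prop := ∀ {n : ℕ} (T : Set (Cn n)), IsOpen T → ∀ f : Cn n → ℂ, (∀ m, HL T m f) →
  ∃ g : Cn n → ℂ, ContDiffOn ℝ ∞ g T ∧ ∀ᵐ x ∂(volume.restrict T), f x = g x

/-! ## The variational solution -/

/-- MINS. The minimizing sequence. USES: DETI.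
PROOF. Write `W = det H`, `N(φ, ψ) := ∫ κ W φ ψ + Re dipE(φ, ψ)` (a symmetric bilinear form on the real vector space of smooth
invariant functions; all integrands are continuous with compact support `⊆ tsupport κ ⊆ T`; `dbp H φ ψ` is conjugate
symmetric because `H⁻¹` is Hermitian, and `dbp H φ φ ≥ 0`), `N(φ, φ) ≥ ∫ κ W φ² ≥ 0`, `l(φ) := ∫ κ W F φ`, `J(φ) := N(φ, φ) + 2 l(φ) ≥
- ∫ κ W F²` (`κ W (φ + F)² ≥ 0`). `d := inf J` over `InvF` (not empty: `0`), `J(φ_j) → d`. Parallelogram law: `N((φ_i - φ_j)/2, same) =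
(J(φ_i) + J(φ_j))/2 - J((φ_i + φ_j)/2) ≤ (J(φ_i) + J(φ_j))/2 - d → 0`. For `h` invariant and real `t`: `d ≤ J(φ_j + t h) = J(φ_j) +
2 t (N(φ_j, h) + l(h)) + t² N(h, h)`, so `(N(φ_j, h) + l(h))² ≤ (J(φ_j) - d) (N(h, h) + 1) → 0` (a quadratic polynomial in `t` that is
`≥ 0`). -/
def S_MINS : Prop := ∀ {n : ℕ} (T : Set (Cn n)) {G : Type u} [Group G]
  (R : G → Cn n → Cn n → Prop) (H : Cn n → Matrix (Fin n) (Fin n) ℂ), KEt T R H →
  ∀ κ, IsPUE T R κ → ∀ F : Cn n → ℝ, InvF T R F → ∃ φ : ℕ → Cn n → ℝ, (∀ j, InvF T R (φ j)) ∧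
    (∀ δ > 0, ∃ J, ∀ i ≥ J, ∀ j ≥ J,
      ∫ x in T, κ x * (H x).det.re * (φ i x - φ j x) ^ 2 ≤ δ) ∧
    ∀ h, InvF T R h → Tendsto (fun j => (∫ x in T, κ x * (H x).det.re * (φ j x * h x)) +
      (dipE T κ (fun x => (H x).det.re) H (fun x => (φ j x : ℂ)) fun x => (h x : ℂ)).re +
      ∫ x in T, κ x * (H x).det.re * (F x * h x)) atTop (𝓝 0)

/-- WKE. The weak equation. USES: WIRT, WCH, ARRB, DETI, BOX, L2C, AUT, L2LIM, LMID, PUE, MINS.
PROOF. `κ` from `PUE`, `φ_j` from `MINS`. `W := det H` is a weight for `m = 0` (`Wt T R 0 W`, by `DETI`), the `φ_j` (as complex functions)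
are of class `Sec T R 0` (invariance under arrows; `det ^ 0 = 1`), `nsE T κ W (φ_i - φ_j)` is the integral of `MINS`. By `L2C` `φ_j` is Cauchy in
`L²(C)` for all compact `C ⊆ T`; `f` from `L2LIM`. For complex `h` of class `Sec T R 0` write `h = h₁ + i h₂` with `h₁, h₂` real, `InvF`
(`R γ x y` comes with a local arrow, `ARRB`). For real smooth invariant `s, t`: `boxO H W s = - trL H s` is real (last item of `DETI`:
`∑ k cd_k (W (H⁻¹) j k) = 0`, and `LMID` (first item) for `DInv`), so `dipE s t = ipE s (boxO t)` is real (`BOX`). Hence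
 (*) `ipE(φ_j, h) + dipE(φ_j, h) + ipE(F, h) → 0` for every `h` of class `Sec T R 0`.
Let `ζ` be a test function on `T`, `η := conj ζ`, `h := aut R 0 η` (`AUT` with `C = tsupport ζ`): `ipE(φ_j, h) = ∫ W φ_j ζ`,
`ipE(F, h) = ∫ W F ζ`, `dipE(φ_j, h) = ∫ W dbp H φ_j η = ∫ ∑ k i, A k i cdb_k φ_j cd_i ζ = - ∫ φ_j ∑ k i, cdb_k (A k i cd_i ζ)`,
`A := W H⁻¹` (`conj (cdb_i (conj ζ)) = cd_i ζ`, integration by parts). Let `j → ∞` (`φ_j → f` in `L²(tsupport ζ)`). -/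
def S_WKE : Prop := ∀ {n : ℕ} (T : Set (Cn n)) {G : Type u} [Group G]
  (R : G → Cn n → Cn n → Prop) (H : Cn n → Matrix (Fin n) (Fin n) ℂ), KEt T R H →
  ∀ F : Cn n → ℝ, InvF T R F → ∃ (φ : ℕ → Cn n → ℝ) (f : Cn n → ℂ), (∀ j, InvF T R (φ j)) ∧
    L2l T f ∧ (∀ C ⊆ T, IsCompact C →
      Tendsto (fun j => ∫ x in C, ‖(φ j x : ℂ) - f x‖ ^ 2) atTop (𝓝 0)) ∧
    WEq T (fun x => (((H x).det.re : ℝ) : ℂ) • (H x)⁻¹) f
      (fun x => (((H x).det.re : ℝ) : ℂ) * f x + (((H x).det.re * F x : ℝ) : ℂ)) fun _ _ => 0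

/-- FNL. End of the proof. USES: WIRT, ARRB, DETI.
PROOF. `g` is real on `T`: `Im (φ_j - f) = - Im f`, so `∫_C (Im f)² ≤ ∫_C |φ_j - f|² → 0`, so `Im g = 0` a.e. on `T`, everywhere
by continuity. `v := Re g`. Invariance: let `R γ x y`, `τ` a local arrow near `x` with `τ x = y` (`ARRB`), `C` a small closed ball about `x`
in its domain `U` such that `τ` is injective with bounded inverse Jacobian on `C`. `φ_j ∘ τ = φ_j` on `U`; `∫_C |φ_j ∘ τ - f ∘ τ|² ≤ B
∫_(τ C) |φ_j - f|² → 0` (change of variables), so `f = f ∘ τ` a.e. on `C`; and `f ∘ τ = g ∘ τ` a.e. on `C` (`τ` is a diffeomorphism onto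
its image), so `g = g ∘ τ` on the interior of `C` (continuity). Equation: in `WEq` replace `f` by `v` (a.e. equal), integrate by parts:
`∫ (∑ j cd_j (∑ k A k j cdb_k v) - W v - W F) ζ = 0` for all test functions `ζ`, so the continuous function in brackets vanishes on
`T` (e.g. `IsOpen.ae_eq_zero_of_integral_contDiff_smul_eq_zero`). By the last item of `DETI` (`∑ j cd_j (A k j) = 0`)
`∑ j cd_j (∑ k A k j cdb_k v) = ∑ j k, A k j cd_j cdb_k v = W trL H v`. -/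
def S_FNL : Prop := ∀ {n : ℕ} (T : Set (Cn n)) {G : Type u} [Group G]
  (R : G → Cn n → Cn n → Prop) (H : Cn n → Matrix (Fin n) (Fin n) ℂ), KEt T R H →
  ∀ (F : Cn n → ℝ) (φ : ℕ → Cn n → ℝ) (f g : Cn n → ℂ), InvF T R F → (∀ j, InvF T R (φ j)) →
    L2l T f → (∀ C ⊆ T, IsCompact C →
      Tendsto (fun j => ∫ x in C, ‖(φ j x : ℂ) - f x‖ ^ 2) atTop (𝓝 0)) →
    WEq T (fun x => (((H x).det.re : ℝ) : ℂ) • (H x)⁻¹) f
      (fun x => (((H x).det.re : ℝ) : ℂ) * f x + (((H x).det.re * F x : ℝ) : ℂ)) (fun _ _ => 0) →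
    ContDiffOn ℝ ∞ g T → (∀ᵐ x ∂(volume.restrict T), f x = g x) →
    ∃ v : Cn n → ℝ, InvF T R v ∧ ∀ x ∈ T, (trL H v x).re - v x = F x

/-- HYP. Hypoellipticity: weak `L²_loc` solutions of `∑ cd_j (∑ A k j cdb_k f) = c f + g` are smooth. -/
def S_HYP : Prop := ∀ {n : ℕ} (T : Set (Cn n)) (A : Cn n → Matrix (Fin n) (Fin n) ℂ), IsOpen T →
  (∀ j k, ContDiffOn ℝ ∞ (fun x => A x j k) T) → (∀ x ∈ T, (A x).PosDef) →
  ∀ f c g : Cn n → ℂ, ContDiffOn ℝ ∞ c T → ContDiffOn ℝ ∞ g T → L2l T f →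
  WEq T A f (fun x => c x * f x + g x) (fun _ _ => 0) →
  ∃ f' : Cn n → ℂ, ContDiffOn ℝ ∞ f' T ∧ ∀ᵐ x ∂(volume.restrict T), f x = f' x

end Pool.Agent.Helper36.HS
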